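import Pool.Agent.Lib.MP_3c7f5c_ag.MonDefs
import Pool.Agent.Lib.MP_3c7f5c_ag.Hom.Basic

/-!
# Algebra of the action of `T` on homology
-/

set_option autoImplicit false

open Set

namespace Pool.Agent.HZ

section linalg
variable {V : Type*} [AddCommGroup V] [Module ℂ V]

theorem alg_iter_smul (L : V →ₗ[ℂ] V) (mu : ℂ) (a : V) (h : L a = mu • a) (m : ℕ) :
    L^[m] a = mu ^ m • a := by
  induction m with
  | zero => simp
  | succ m ih =>
    rw [Function.iterate_succ_apply', ih, map_smul, h, smul_smul, pow_succ]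

theorem alg_six (L : V →ₗ[ℂ] V) (h : ∀ a, L^[6] a = a)
    (hn : ∀ lam : ℂ, lam ^ 2 - lam + 1 = 0 → ∀ a, L a = lam • a → a = 0) (a : V) :
    L (L (L (L a))) + L (L (L a)) - L a - a = 0 := by
  obtain ⟨z, hz⟩ := IsAlgClosed.exists_pow_nat_eq (-3 : ℂ) (show 0 < 2 by norm_num)
  set ζ : ℂ := (1 + z) / 2 with hζ
  have h1 : ζ ^ 2 - ζ + 1 = 0 := by
    rw [hζ]
    linear_combination hz / 4
  have h2 : (1 - ζ) ^ 2 - (1 - ζ) + 1 = 0 := by linear_combination h1
  set b := L (L (L (L a))) + L (L (L a)) - L a - a with hb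
  have h6 : L (L (L (L (L (L a))))) = a := h a
  have hb2 : L (L b) - L b + b = 0 := by
    have h7 : L (L b) - L b + b = L (L (L (L (L (L a))))) - a := by
      rw [hb]
      simp only [map_add, map_sub]
      abel
    rw [h7, h6, sub_self]
  set c := L b - (1 - ζ) • b with hc
  have hLc : L c = ζ • c := by
    have h8 : L (L b) = L b - b := by
      have := hb2
      rw [← sub_eq_zero]
      rw [← this]
      abel
    rw [hc, map_sub, map_smul, h8, smul_sub, smul_smul]
    have h9 : ζ * (1 - ζ) = 1 := by linear_combination -h1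
    rw [h9, one_smul, sub_smul, one_smul]
    abel
  have hc0 : c = 0 := hn ζ h1 c hLc
  have hLb : L b = (1 - ζ) • b := by
    rw [← sub_eq_zero, ← hc, hc0]
  exact hn (1 - ζ) h2 b hLb

end linalg

section
variable {X Y : Type} [TopologicalSpace X] [TopologicalSpace Y]

theorem PowOne.noEig {T : C(X, X)} {m : ℕ} (h : PowOne T m) {mu : ℂ} (hmu : mu ^ m ≠ 1) :
    NoEig T mu := by
  intro k a ha
  have h1 := alg_iter_smul (Hmap k T) mu a ha m
  rw [h k a] at h1
  have h2 : (mu ^ m - 1) • a = 0 := by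
    rw [sub_smul, one_smul, ← h1, sub_self]
  exact (smul_eq_zero.1 h2).resolve_left (sub_ne_zero.2 hmu)

theorem PowOne.of_dvd {T : C(X, X)} {m n : ℕ} (h : PowOne T m) (hmn : m ∣ n) : PowOne T n := by
  obtain ⟨c, rfl⟩ := hmn
  intro k a
  rw [Function.iterate_mul]
  have h1 : (Hmap k T)^[m] = id := funext (h k)
  rw [h1, Function.iterate_id]
  rfl

theorem Kill.of_pow_two {T : C(X, X)} (h : PowOne T 2) : Kill T := by
  intro k a
  have h1 : ∀ a, Hmap k T (Hmap k T a) = a := h k
  rw [h1, h1]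
  abel

/-- if `T^6 = 1` and `T` has no eigenvalue of order exactly 6 then `(T²-1)(T²+T+1) = 0` -/
theorem Kill.of_noEig {T : C(X, X)} (h : PowOne T 6)
    (hn : ∀ lam : ℂ, lam ^ 2 - lam + 1 = 0 → NoEig T lam) : Kill T := by
  intro k a
  exact alg_six (Hmap k T) (h k) (fun lam hl a => hn lam hl k a) a

theorem lam_facts {lam : ℂ} (h : lam ^ 2 - lam + 1 = 0) :
    lam ^ 2 ≠ 1 ∧ (-lam) ^ 3 = 1 ∧ (-lam) ≠ 1 ∧ lam ^ 3 = -1 := by
  have h3 : lam ^ 3 = -1 := by linear_combination (lam + 1) * h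
  refine ⟨?_, ?_, ?_, h3⟩
  · intro h2
    have h4 : lam = 2 := by linear_combination h2 - h
    rw [h4] at h2
    norm_num at h2
  · linear_combination -h3
  · intro h2
    have h4 : lam = -1 := by linear_combination -h2
    rw [h4] at h
    norm_num at h

theorem order_of_kill {lam : ℂ} (h : lam ^ 4 + lam ^ 3 - lam - 1 = 0) : ¬ 6 ∣ orderOf lam := by
  intro h6
  have h1 : (lam ^ 2 - 1) * (lam ^ 2 + lam + 1) = 0 := by linear_combination h
  rcases mul_eq_zero.1 h1 with h2 | h2
  · have h3 : lam ^ 2 = 1 := by linear_combination h2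
    have h4 := h6.trans (orderOf_dvd_of_pow_eq_one h3)
    norm_num at h4
  · have h3 : lam ^ 3 = 1 := by linear_combination (lam - 1) * h2
    have h4 := h6.trans (orderOf_dvd_of_pow_eq_one h3)
    norm_num at h4

end

end Pool.Agent.HZ
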