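import Pool.Agent.Lib.MP_3c7f5c_ag.MonDefs
import Pool.Agent.Lib.MP_3c7f5c_ag.Hom.Basic

/-!
# Transport along maps inducing bijections in homology
-/

set_option autoImplicit false

open Set

namespace Pool.Agent.HZ

section linalg
variable {V V' : Type*} [AddCommGroup V] [Module ℂ V] [AddCommGroup V'] [Module ℂ V']

theorem conj_iter (L : V →ₗ[ℂ] V) (L' : V' →ₗ[ℂ] V') (Φ : V' →ₗ[ℂ] V)
    (hΦ : ∀ b, Φ (L' b) = L (Φ b)) (m : ℕ) (b : V') : Φ (L'^[m] b) = L^[m] (Φ b) := by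
  induction m with
  | zero => rfl
  | succ m ih => rw [Function.iterate_succ_apply', Function.iterate_succ_apply', hΦ, ih]

theorem conj_surj (L : V →ₗ[ℂ] V) (L' : V' →ₗ[ℂ] V') (Φ : V' →ₗ[ℂ] V)
    (hΦ : ∀ b, Φ (L' b) = L (Φ b)) (hs : Function.Surjective Φ) {m : ℕ} (hm : 0 < m)
    (h1 : ∀ b, L'^[m] b = b) {mu : ℂ} (hmu : mu ^ m = 1) (h : ∀ b, L' b = mu • b → b = 0)
    (a : V) (ha : L a = mu • a) : a = 0 := by
  obtain ⟨b, rfl⟩ := hs a
  have hmu0 : mu ≠ 0 := by
    rintro rfl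
    rw [zero_pow hm.ne'] at hmu
    exact zero_ne_one hmu
  set b' := ∑ j ∈ Finset.range m, (mu⁻¹) ^ j • L'^[j] b with hb'
  have h2 : L' b' = mu • b' := by
    have h3 : L' b' = mu • ∑ j ∈ Finset.range m, (mu⁻¹) ^ (j + 1) • L'^[j + 1] b := by
      rw [hb', map_sum, Finset.smul_sum]
      refine Finset.sum_congr rfl fun j _ => ?_
      rw [map_smul, smul_smul, Function.iterate_succ_apply']
      congr 1
      rw [pow_succ]
      field_simp
    have h4 := Finset.sum_range_succ' (fun j => (mu⁻¹) ^ j • L'^[j] b) m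
    have h5 := Finset.sum_range_succ (fun j => (mu⁻¹) ^ j • L'^[j] b) m
    have h6 : (mu⁻¹) ^ m • L'^[m] b = b := by
      rw [h1, inv_pow, hmu, inv_one, one_smul]
    have h7 : (mu⁻¹) ^ 0 • L'^[0] b = b := by simp
    rw [h5, h6, h7] at h4
    rw [h3]
    congr 1
    exact (add_right_cancel h4).symm
  have h3 : b' = 0 := h b' h2
  have h4 : Φ b' = (m : ℂ) • Φ b := by
    rw [hb', map_sum]
    have h5 : ∀ j ∈ Finset.range m, Φ ((mu⁻¹) ^ j • L'^[j] b) = Φ b := by
      intro j _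
      rw [map_smul, conj_iter L L' Φ hΦ]
      have h6 : ∀ j, L^[j] (Φ b) = mu ^ j • Φ b := by
        intro j
        induction j with
        | zero => simp
        | succ j ih =>
          rw [Function.iterate_succ_apply', ih, map_smul, ha, smul_smul, pow_succ]
      rw [h6, smul_smul, ← mul_pow, inv_mul_cancel₀ hmu0, one_pow, one_smul]
    rw [Finset.sum_congr rfl h5, Finset.sum_const, Finset.card_range, ← Nat.cast_smul_eq_nsmul ℂ]
  rw [h3, map_zero] at h4
  have h5 : (m : ℂ) ≠ 0 := by exact_mod_cast hm.ne'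
  exact (smul_eq_zero.1 h4.symm).resolve_left h5

end linalg

section
variable {X Y : Type} [TopologicalSpace X] [TopologicalSpace Y]

theorem conj_homeo_inj (e : X ≃ₜ Y) (k : ℕ) :
    Function.Injective (Hmap k (⟨e, e.continuous⟩ : C(X, Y))) := by
  have h1 : ∀ a, Hmap k (⟨e.symm, e.symm.continuous⟩ : C(Y, X))
      (Hmap k (⟨e, e.continuous⟩ : C(X, Y)) a) = a := by
    intro a
    rw [← Hmap_comp]
    have h2 : (⟨e.symm, e.symm.continuous⟩ : C(Y, X)).comp (⟨e, e.continuous⟩ : C(X, Y)) =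
        ContinuousMap.id X := by
      ext x
      exact e.symm_apply_apply x
    rw [h2, Hmap_id]
  exact Function.LeftInverse.injective h1

/-! transport along maps inducing bijections in homology -/
theorem NoEig.transport {T : C(X, X)} {T' : C(Y, Y)} (φ : C(X, Y))
    (hφ : (φ.comp T).Homotopic (T'.comp φ)) (hinj : ∀ k, Function.Injective (Hmap k φ)) {mu : ℂ}
    (h : NoEig T' mu) : NoEig T mu := by
  intro k a ha
  have h1 : Hmap k T' (Hmap k φ a) = mu • Hmap k φ a := by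
    rw [← Hmap_comp, ← Hmap_homotopic k hφ, Hmap_comp, ha, map_smul]
  have h2 := h k _ h1
  exact hinj k (by rw [h2, map_zero])

theorem NoEig.of_homeo (e : X ≃ₜ Y) {T : C(X, X)} {T' : C(Y, Y)} (he : ∀ x, e (T x) = T' (e x))
    {mu : ℂ} (h : NoEig T' mu) : NoEig T mu := by
  refine NoEig.transport (⟨e, e.continuous⟩ : C(X, Y)) ?_ (conj_homeo_inj e) h
  have h1 : (⟨e, e.continuous⟩ : C(X, Y)).comp T = T'.comp (⟨e, e.continuous⟩ : C(X, Y)) := by
    ext x
    exact he x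
  rw [h1]

/-- surjective version, with a finite order lift -/
theorem NoEig.of_surj {T : C(X, X)} {T' : C(Y, Y)} (φ : C(Y, X)) (hφ : ∀ y, φ (T' y) = T (φ y))
    (hs : ∀ k, Function.Surjective (Hmap k φ)) {m : ℕ} (hm : 0 < m) (h1 : PowOne T' m) {mu : ℂ}
    (hmu : mu ^ m = 1) (h : NoEig T' mu) : NoEig T mu := by
  intro k a ha
  have h2 : φ.comp T' = T.comp φ := by
    ext y
    exact hφ y
  refine conj_surj (Hmap k T) (Hmap k T') (Hmap k φ) ?_ (hs k) hm (h1 k) hmu (h k) a ha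
  intro b
  rw [← Hmap_comp, h2, Hmap_comp]

theorem PowOne.of_homeo (e : X ≃ₜ Y) {T : C(X, X)} {T' : C(Y, Y)} (he : ∀ x, e (T x) = T' (e x))
    {m : ℕ} (h : PowOne T' m) : PowOne T m := by
  intro k a
  apply conj_homeo_inj e k
  have h2 : (⟨e, e.continuous⟩ : C(X, Y)).comp T = T'.comp (⟨e, e.continuous⟩ : C(X, Y)) := by
    ext x
    exact he x
  rw [conj_iter (Hmap k T') (Hmap k T) (Hmap k (⟨e, e.continuous⟩ : C(X, Y)))
    (fun b => by rw [← Hmap_comp, h2, Hmap_comp]) m a]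
  exact h k _

theorem Kill.of_homeo (e : X ≃ₜ Y) {T : C(X, X)} {T' : C(Y, Y)} (he : ∀ x, e (T x) = T' (e x))
    (h : Kill T') : Kill T := by
  intro k a
  apply conj_homeo_inj e k
  have h2 : (⟨e, e.continuous⟩ : C(X, Y)).comp T = T'.comp (⟨e, e.continuous⟩ : C(X, Y)) := by
    ext x
    exact he x
  have h3 : ∀ b, Hmap k (⟨e, e.continuous⟩ : C(X, Y)) (Hmap k T b) =
      Hmap k T' (Hmap k (⟨e, e.continuous⟩ : C(X, Y)) b) :=
    fun b => by rw [← Hmap_comp, h2, Hmap_comp]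
  rw [map_sub, map_sub, map_add, map_zero]
  simp only [h3]
  exact h k _

end

end Pool.Agent.HZ
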