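import Pool.Agent.Lib.MP_3c7f5c_ag.MonDefs

/-!
# HZ-TS1: the square of the monodromy is homotopic to the identity on the two halves of the
suspension
-/

open Set
open scoped unitInterval

namespace Pool.Agent.HZ

section
variable {Z : Type} [TopologicalSpace Z] (F : C(Z, ℂ))

private theorem cont_q : Continuous fun p : Susp F => p.1.2.2 := by
  have h1 : Continuous fun p : Susp F => p.1 := continuous_subtype_val
  exact continuous_snd.comp (continuous_snd.comp h1)

private theorem cont_tau : Continuous fun p : Susp F => p.1.2.1 := by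
  have h1 : Continuous fun p : Susp F => p.1 := continuous_subtype_val
  exact continuous_fst.comp (continuous_snd.comp h1)

private theorem cont_z : Continuous fun p : Susp F => p.1.1 := by
  have h1 : Continuous fun p : Susp F => p.1 := continuous_subtype_val
  exact continuous_fst.comp h1

theorem isOpen_Up : IsOpen (Up F) :=
  isOpen_lt continuous_const (Complex.continuous_re.comp (cont_q F))

theorem isOpen_Um : IsOpen (Um F) :=
  isOpen_lt (Complex.continuous_re.comp (cont_q F)) continuous_const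

theorem Up_union_Um : Up F ∪ Um F = univ := by
  refine eq_univ_of_forall fun p => ?_
  rcases lt_or_ge (-1 / 2 : ℝ) p.1.2.2.re with h | h
  · exact Or.inl h
  · right
    show p.1.2.2.re < 1 / 2
    linarith

theorem mapsTo_T_Up : MapsTo (Susp.T F) (Up F) (Um F) := by
  intro p hp
  have h : -1 / 2 < p.1.2.2.re := hp
  show (-p.1.2.2).re < 1 / 2
  rw [Complex.neg_re]
  linarith

theorem mapsTo_T_Um : MapsTo (Susp.T F) (Um F) (Up F) := by
  intro p hp
  have h : p.1.2.2.re < 1 / 2 := hp
  show -1 / 2 < (-p.1.2.2).re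
  rw [Complex.neg_re]
  linarith

theorem mapsTo_T_inter : MapsTo (Susp.T F) (Up F ∩ Um F) (Up F ∩ Um F) :=
  fun _ hp => ⟨mapsTo_T_Um F hp.2, mapsTo_T_Up F hp.1⟩

theorem mapsTo_TT_Up : MapsTo ((Susp.T F).comp (Susp.T F)) (Up F) (Up F) :=
  fun _ hp => mapsTo_T_Um F (mapsTo_T_Up F hp)

theorem mapsTo_TT_Um : MapsTo ((Susp.T F).comp (Susp.T F)) (Um F) (Um F) :=
  fun _ hp => mapsTo_T_Up F (mapsTo_T_Um F hp)

/-- real part of the exponent -/
private noncomputable def zre (t : ℝ) (q : ℂ) : ℝ := ‖1 - q‖ * min 1 (min (3 * t) (3 - 3 * t))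

/-- imaginary part of the exponent -/
private noncomputable def zim (t : ℝ) : ℝ := 4 * Real.pi * max 0 (min 1 (3 * t - 1))

private noncomputable def zet (t : ℝ) (q : ℂ) : ℂ := (zre t q : ℂ) + (zim t : ℂ) * Complex.I

private noncomputable def qz (t : ℝ) (q : ℂ) : ℂ := 1 - Complex.exp (-zet t q) * (1 - q)

private theorem zre_nonneg {t : ℝ} (h0 : 0 ≤ t) (h1 : t ≤ 1) (q : ℂ) : 0 ≤ zre t q := by
  unfold zre
  refine mul_nonneg (norm_nonneg _) (le_min zero_le_one (le_min ?_ ?_)) <;> linarith

private theorem exp_four_pi : Complex.exp (-((4 * Real.pi : ℝ) * Complex.I)) = 1 := by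
  have h : (-((4 * Real.pi : ℝ) * Complex.I) : ℂ) = ((-2 : ℤ) : ℂ) * (2 * Real.pi * Complex.I) := by
    push_cast
    ring
  rw [h]
  exact Complex.exp_int_mul_two_pi_mul_I (-2)

private theorem exp_zet_real {t : ℝ} {q : ℂ}
    (h : zim t = 0 ∨ zim t = 4 * Real.pi) :
    Complex.exp (-zet t q) = (Real.exp (-zre t q) : ℂ) := by
  unfold zet
  rw [neg_add, Complex.exp_add]
  rcases h with h | h
  · rw [h]
    simp
  · rw [h, exp_four_pi]
    simp

private theorem qz_re {t : ℝ} (h0 : 0 ≤ t) (h1 : t ≤ 1) {q : ℂ} (hq : -1 / 2 < q.re) :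
    -1 / 2 < (qz t q).re := by
  have key : (zim t = 0 ∨ zim t = 4 * Real.pi) ∨ zre t q = ‖1 - q‖ := by
    rcases le_total t (1 / 3) with h | h
    · left; left
      unfold zim
      have h2 : min 1 (3 * t - 1) ≤ 0 := (min_le_right _ _).trans (by linarith)
      rw [max_eq_left h2, mul_zero]
    · rcases le_total t (2 / 3) with h' | h'
      · right
        unfold zre
        rw [min_eq_left (le_min (by linarith) (by linarith)), mul_one]
      · left; right
        unfold zim
        rw [min_eq_left (by linarith), max_eq_right zero_le_one, mul_one]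
  rcases key with h | h
  · unfold qz
    rw [exp_zet_real h, Complex.sub_re, Complex.re_ofReal_mul, Complex.sub_re, Complex.one_re]
    have hr0 : 0 < Real.exp (-zre t q) := Real.exp_pos _
    have hr1 : Real.exp (-zre t q) ≤ 1 := by
      rw [Real.exp_le_one_iff]
      linarith [zre_nonneg h0 h1 q]
    set r := Real.exp (-zre t q) with hr
    have h3 : 1 - q.re < 3 / 2 := by linarith
    rcases le_total (1 - q.re) 0 with h4 | h4
    · have : r * (1 - q.re) ≤ 0 := mul_nonpos_of_nonneg_of_nonpos hr0.le h4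
      linarith
    · have : r * (1 - q.re) ≤ 1 * (1 - q.re) := mul_le_mul_of_nonneg_right hr1 h4
      linarith
  · have hn : ‖Complex.exp (-zet t q) * (1 - q)‖ < 1 := by
      rw [norm_mul, Complex.norm_exp]
      have h5 : (-zet t q).re = -‖1 - q‖ := by
        unfold zet
        rw [h]
        simp
      rw [h5, Real.exp_neg]
      rw [inv_mul_lt_iff₀ (Real.exp_pos _), mul_one]
      have := Real.add_one_le_exp ‖1 - q‖
      linarith
    unfold qz
    have h6 := Complex.re_le_norm (Complex.exp (-zet t q) * (1 - q))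
    rw [Complex.sub_re, Complex.one_re]
    linarith

private theorem slit_of_re {q : ℂ} (hq : -1 / 2 < q.re) : 1 + q ∈ Complex.slitPlane := by
  rw [Complex.mem_slitPlane_iff]
  left
  rw [Complex.add_re, Complex.one_re]
  linarith

private theorem susp_eq {t : ℝ} {q τ : ℂ} (hq : 1 + q ≠ 0) (hqz : 1 + qz t q ≠ 0) :
    (1 - (qz t q) ^ 2) * Complex.exp (τ + zet t q - (Complex.log (1 + qz t q) - Complex.log (1 + q)))
      = (1 - q ^ 2) * Complex.exp τ := by
  rw [Complex.exp_sub, Complex.exp_sub, Complex.exp_log hq, Complex.exp_log hqz, Complex.exp_add]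
  have h1 : 1 - (qz t q) ^ 2 = Complex.exp (-zet t q) * (1 - q) * (1 + qz t q) := by
    have h2 : 1 - qz t q = Complex.exp (-zet t q) * (1 - q) := by
      unfold qz
      ring
    calc 1 - (qz t q) ^ 2 = (1 - qz t q) * (1 + qz t q) := by ring
      _ = _ := by rw [h2]
  rw [h1, Complex.exp_neg]
  have h3 := Complex.exp_ne_zero (zet t q)
  field_simp
  ring

private theorem cont_zre {X : Type} [TopologicalSpace X] {t : X → ℝ} {q : X → ℂ}
    (ht : Continuous t) (hq : Continuous q) : Continuous fun x => zre (t x) (q x) := by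
  unfold zre
  fun_prop

private theorem cont_zim {X : Type} [TopologicalSpace X] {t : X → ℝ}
    (ht : Continuous t) : Continuous fun x => zim (t x) := by
  unfold zim
  fun_prop

private theorem cont_zet {X : Type} [TopologicalSpace X] {t : X → ℝ} {q : X → ℂ}
    (ht : Continuous t) (hq : Continuous q) : Continuous fun x => zet (t x) (q x) := by
  unfold zet
  exact (Complex.continuous_ofReal.comp (cont_zre ht hq)).add
    ((Complex.continuous_ofReal.comp (cont_zim ht)).mul continuous_const)

private theorem cont_qz {X : Type} [TopologicalSpace X] {t : X → ℝ} {q : X → ℂ}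
    (ht : Continuous t) (hq : Continuous q) : Continuous fun x => qz (t x) (q x) := by
  unfold qz
  exact continuous_const.sub ((Complex.continuous_exp.comp (cont_zet ht hq).neg).mul
    (continuous_const.sub hq))

private noncomputable def KUp : C(I × Up F, Up F) where
  toFun x := ⟨⟨(x.2.1.1.1,
      x.2.1.1.2.1 + zet x.1 x.2.1.1.2.2
        - (Complex.log (1 + qz x.1 x.2.1.1.2.2) - Complex.log (1 + x.2.1.1.2.2)),
      qz x.1 x.2.1.1.2.2), by
        have h2 : -1 / 2 < (x.2.1.1.2.2).re := x.2.2
        show F x.2.1.1.1 = _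
        rw [susp_eq (Complex.slitPlane_ne_zero (slit_of_re h2))
          (Complex.slitPlane_ne_zero (slit_of_re (qz_re x.1.2.1 x.1.2.2 h2)))]
        exact x.2.1.2⟩, by
      show -1 / 2 < (qz x.1 x.2.1.1.2.2).re
      exact qz_re x.1.2.1 x.1.2.2 x.2.2⟩
  continuous_toFun := by
    have hp : Continuous fun x : I × Up F => (x.2.1 : Susp F) :=
      continuous_subtype_val.comp continuous_snd
    have ht : Continuous fun x : I × Up F => (x.1 : ℝ) :=
      continuous_subtype_val.comp continuous_fst
    have hz : Continuous fun x : I × Up F => x.2.1.1.1 := (cont_z F).comp hp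
    have htau : Continuous fun x : I × Up F => x.2.1.1.2.1 := (cont_tau F).comp hp
    have hq : Continuous fun x : I × Up F => x.2.1.1.2.2 := (cont_q F).comp hp
    have hqz : Continuous fun x : I × Up F => qz x.1 x.2.1.1.2.2 := cont_qz ht hq
    have hzet : Continuous fun x : I × Up F => zet x.1 x.2.1.1.2.2 := cont_zet ht hq
    have hl1 : Continuous fun x : I × Up F => Complex.log (1 + qz x.1 x.2.1.1.2.2) :=
      (continuous_const.add hqz).clog fun x => slit_of_re (qz_re x.1.2.1 x.1.2.2 x.2.2)
    have hl2 : Continuous fun x : I × Up F => Complex.log (1 + x.2.1.1.2.2) :=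
      (continuous_const.add hq).clog fun x => slit_of_re x.2.2
    refine Continuous.subtype_mk (Continuous.subtype_mk ?_ _) _
    exact hz.prodMk (((htau.add hzet).sub (hl1.sub hl2)).prodMk hqz)

private theorem zet_zero (q : ℂ) : zet 0 q = 0 := by
  unfold zet zre zim
  norm_num

private theorem zet_one (q : ℂ) : zet 1 q = (4 * Real.pi : ℝ) * Complex.I := by
  unfold zet zre zim
  norm_num

private theorem qz_zero (q : ℂ) : qz 0 q = q := by
  unfold qz
  rw [zet_zero]
  simp

private theorem qz_one (q : ℂ) : qz 1 q = q := by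
  unfold qz
  rw [zet_one, exp_four_pi]
  ring

theorem TT_Up_homotopic : (restrC _ (mapsTo_TT_Up F)).Homotopic (ContinuousMap.id (Up F)) := by
  refine ContinuousMap.Homotopic.symm ⟨⟨KUp F, ?_, ?_⟩⟩
  · intro x
    apply Subtype.ext
    apply Subtype.ext
    show (x.1.1.1, x.1.1.2.1 + zet ((0 : I) : ℝ) x.1.1.2.2
        - (Complex.log (1 + qz ((0 : I) : ℝ) x.1.1.2.2) - Complex.log (1 + x.1.1.2.2)),
      qz ((0 : I) : ℝ) x.1.1.2.2) = x.1.1
    rw [Set.Icc.coe_zero, zet_zero, qz_zero]
    simp
  · intro x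
    apply Subtype.ext
    apply Subtype.ext
    show (x.1.1.1, x.1.1.2.1 + zet ((1 : I) : ℝ) x.1.1.2.2
        - (Complex.log (1 + qz ((1 : I) : ℝ) x.1.1.2.2) - Complex.log (1 + x.1.1.2.2)),
      qz ((1 : I) : ℝ) x.1.1.2.2)
        = (x.1.1.1, x.1.1.2.1 + 2 * Real.pi * Complex.I + 2 * Real.pi * Complex.I,
          - -x.1.1.2.2)
    rw [Set.Icc.coe_one, zet_one, qz_one, neg_neg]
    refine Prod.ext rfl (Prod.ext ?_ rfl)
    show _ = _
    push_cast
    ring

/-- the reflection `q ↦ -q` -/
private noncomputable def JC : C(Susp F, Susp F) where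
  toFun p := ⟨(p.1.1, p.1.2.1, -p.1.2.2), by
    rw [neg_sq]
    exact p.2⟩
  continuous_toFun := by
    refine Continuous.subtype_mk ?_ _
    exact (cont_z F).prodMk ((cont_tau F).prodMk (cont_q F).neg)

private theorem mapsTo_J_Up : MapsTo (JC F) (Up F) (Um F) := by
  intro p hp
  have h : -1 / 2 < p.1.2.2.re := hp
  show (-p.1.2.2).re < 1 / 2
  rw [Complex.neg_re]
  linarith

private theorem mapsTo_J_Um : MapsTo (JC F) (Um F) (Up F) := by
  intro p hp
  have h : p.1.2.2.re < 1 / 2 := hp
  show -1 / 2 < (-p.1.2.2).re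
  rw [Complex.neg_re]
  linarith

theorem TT_Um_homotopic : (restrC _ (mapsTo_TT_Um F)).Homotopic (ContinuousMap.id (Um F)) := by
  have h := (ContinuousMap.Homotopic.refl (restrC (JC F) (mapsTo_J_Up F))).comp
    ((TT_Up_homotopic F).comp (ContinuousMap.Homotopic.refl (restrC (JC F) (mapsTo_J_Um F))))
  have e1 : (restrC (JC F) (mapsTo_J_Up F)).comp
      ((restrC _ (mapsTo_TT_Up F)).comp (restrC (JC F) (mapsTo_J_Um F)))
      = restrC _ (mapsTo_TT_Um F) := by
    ext x
    apply Subtype.ext
    show (x.1.1.1, x.1.1.2.1 + 2 * Real.pi * Complex.I + 2 * Real.pi * Complex.I,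
        - - - -x.1.1.2.2) = (x.1.1.1,
          x.1.1.2.1 + 2 * Real.pi * Complex.I + 2 * Real.pi * Complex.I, - -x.1.1.2.2)
    simp
  have e2 : (restrC (JC F) (mapsTo_J_Up F)).comp
      ((ContinuousMap.id (Up F)).comp (restrC (JC F) (mapsTo_J_Um F)))
      = ContinuousMap.id (Um F) := by
    ext x
    apply Subtype.ext
    show (x.1.1.1, x.1.1.2.1, - -x.1.1.2.2) = x.1.1
    simp
  rw [e1, e2] at h
  exact h

end

end Pool.Agent.HZ
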