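import Pool.Agent.Lib.MP_3c7f5c_ag.MonDefs
import Pool.Agent.Lib.MP_3c7f5c_ag.Hom.Basic
import Pool.Agent.Lib.MP_3c7f5c_ag.Mon.TS1

/-!
# The middle part of the suspension
-/

open Set

namespace Pool.Agent.HZ

section
variable {Z : Type} [TopologicalSpace Z] (F : C(Z, ℂ))

theorem re_sq_pos (q : ℂ) (h1 : -1 / 2 < q.re) (h2 : q.re < 1 / 2) (s : ℝ) (h0 : 0 ≤ s)
    (hs : s ≤ 1) : 1 - ((s : ℂ) * q) ^ 2 ∈ Complex.slitPlane := by
  rw [Complex.mem_slitPlane_iff]
  left
  have h3 : (1 - ((s : ℂ) * q) ^ 2).re = 1 - s ^ 2 * (q.re ^ 2 - q.im ^ 2) := by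
    rw [pow_two, Complex.sub_re, Complex.one_re, Complex.mul_re, Complex.mul_re, Complex.mul_im]
    simp only [Complex.ofReal_re, Complex.ofReal_im]
    ring
  rw [h3]
  have h4 : q.re ^ 2 < 1 := by nlinarith
  have h5 : s ^ 2 ≤ 1 := by nlinarith
  have h6 : 0 ≤ s ^ 2 := by positivity
  nlinarith [mul_nonneg h6 (sq_nonneg q.im), mul_nonneg h6 (sq_nonneg q.re),
    mul_le_mul_of_nonneg_right h5 (sq_nonneg q.re)]

theorem slit_mid (p : (Up F ∩ Um F : Set (Susp F))) :
    1 - p.1.1.2.2 ^ 2 ∈ Complex.slitPlane := by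
  have h1 : -1 / 2 < p.1.1.2.2.re := p.2.1
  have h2 : p.1.1.2.2.re < 1 / 2 := p.2.2
  have := re_sq_pos p.1.1.2.2 h1 h2 1 zero_le_one le_rfl
  simpa using this

/-- `(z, τ, q) ↦ (z, τ + log (1 - q²))` -/
noncomputable def rmap : C((Up F ∩ Um F : Set (Susp F)), Cov F) where
  toFun p := ⟨(p.1.1.1, p.1.1.2.1 + Complex.log (1 - p.1.1.2.2 ^ 2)), by
    have h := Complex.slitPlane_ne_zero (slit_mid F p)
    have h2 : F p.1.1.1 = (1 - p.1.1.2.2 ^ 2) * Complex.exp p.1.1.2.1 := p.1.2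
    rw [Complex.exp_add, Complex.exp_log h, h2]
    ring⟩
  continuous_toFun := by
    have h : Continuous fun p : (Up F ∩ Um F : Set (Susp F)) => p.1.1 :=
      continuous_subtype_val.comp continuous_subtype_val
    have ht : Continuous fun p : (Up F ∩ Um F : Set (Susp F)) => p.1.1.2.1 :=
      continuous_fst.comp (continuous_snd.comp h)
    have hq : Continuous fun p : (Up F ∩ Um F : Set (Susp F)) => p.1.1.2.2 :=
      continuous_snd.comp (continuous_snd.comp h)
    refine Continuous.subtype_mk ?_ _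
    exact (continuous_fst.comp h).prodMk
      (ht.add ((continuous_const.sub (hq.pow 2)).clog (slit_mid F)))

/-- `(z, τ) ↦ (z, τ, 0)` -/
noncomputable def imap : C(Cov F, (Up F ∩ Um F : Set (Susp F))) where
  toFun p := ⟨⟨(p.1.1, p.1.2, 0), by
    have h2 : F p.1.1 = Complex.exp p.1.2 := p.2
    rw [h2]
    simp⟩, by
      constructor
      · change -1 / 2 < (0 : ℂ).re
        norm_num
      · change (0 : ℂ).re < 1 / 2
        norm_num⟩
  continuous_toFun := by
    have h : Continuous fun p : Cov F => p.1 := continuous_subtype_val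
    refine Continuous.subtype_mk (Continuous.subtype_mk ?_ _) _
    exact (continuous_fst.comp h).prodMk ((continuous_snd.comp h).prodMk continuous_const)

theorem homot_eq (s : unitInterval) (p : (Up F ∩ Um F : Set (Susp F))) :
    F p.1.1.1 = (1 - (((s : ℝ) : ℂ) * p.1.1.2.2) ^ 2) *
      Complex.exp (p.1.1.2.1 + Complex.log (1 - p.1.1.2.2 ^ 2) -
        Complex.log (1 - (((s : ℝ) : ℂ) * p.1.1.2.2) ^ 2)) := by
  have h := Complex.slitPlane_ne_zero (slit_mid F p)
  have h1 := Complex.slitPlane_ne_zero (re_sq_pos p.1.1.2.2 p.2.1 p.2.2 s s.2.1 s.2.2)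
  have h2 : F p.1.1.1 = (1 - p.1.1.2.2 ^ 2) * Complex.exp p.1.1.2.1 := p.1.2
  have h3 : ∀ A B : ℂ, A ≠ 0 → A * (B / A) = B := fun A B hA => by field_simp
  rw [Complex.exp_sub, Complex.exp_add, Complex.exp_log h, Complex.exp_log h1, h2, h3 _ _ h1]
  ring

theorem homot_mem (s : unitInterval) (p : (Up F ∩ Um F : Set (Susp F))) :
    -1 / 2 < (((s : ℝ) : ℂ) * p.1.1.2.2).re ∧ (((s : ℝ) : ℂ) * p.1.1.2.2).re < 1 / 2 := by
  have h1 : -1 / 2 < p.1.1.2.2.re := p.2.1
  have h2 : p.1.1.2.2.re < 1 / 2 := p.2.2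
  have h3 := s.2.1
  have h4 := s.2.2
  rw [Complex.re_ofReal_mul]
  constructor <;> nlinarith

theorem imap_rmap : ((imap F).comp (rmap F)).Homotopic (ContinuousMap.id _) := by
  refine ⟨{ toFun := fun x => ⟨⟨(x.2.1.1.1, x.2.1.1.2.1 + Complex.log (1 - x.2.1.1.2.2 ^ 2) -
              Complex.log (1 - (((x.1 : ℝ) : ℂ) * x.2.1.1.2.2) ^ 2),
              ((x.1 : ℝ) : ℂ) * x.2.1.1.2.2), homot_eq F x.1 x.2⟩, homot_mem F x.1 x.2⟩
            continuous_toFun := ?_
            map_zero_left := ?_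
            map_one_left := ?_ }⟩
  · have h : Continuous fun x : unitInterval × (Up F ∩ Um F : Set (Susp F)) => x.2.1.1 :=
      continuous_subtype_val.comp (continuous_subtype_val.comp continuous_snd)
    have ht : Continuous fun x : unitInterval × (Up F ∩ Um F : Set (Susp F)) => x.2.1.1.2.1 :=
      continuous_fst.comp (continuous_snd.comp h)
    have hq : Continuous fun x : unitInterval × (Up F ∩ Um F : Set (Susp F)) => x.2.1.1.2.2 :=
      continuous_snd.comp (continuous_snd.comp h)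
    have hs : Continuous fun x : unitInterval × (Up F ∩ Um F : Set (Susp F)) =>
        (((x.1 : ℝ) : ℂ)) :=
      Complex.continuous_ofReal.comp (continuous_subtype_val.comp continuous_fst)
    refine Continuous.subtype_mk (Continuous.subtype_mk ?_ _) _
    refine (continuous_fst.comp h).prodMk (Continuous.prodMk ?_ (hs.mul hq))
    refine (ht.add ((continuous_const.sub (hq.pow 2)).clog fun x => slit_mid F x.2)).sub
      ((continuous_const.sub ((hs.mul hq).pow 2)).clog fun x => ?_)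
    exact re_sq_pos _ x.2.2.1 x.2.2.2 x.1 x.1.2.1 x.1.2.2
  · intro p
    apply Subtype.ext
    apply Subtype.ext
    refine Prod.ext rfl (Prod.ext ?_ ?_)
    · change p.1.1.2.1 + Complex.log (1 - p.1.1.2.2 ^ 2) -
        Complex.log (1 - (((0 : ℝ) : ℂ) * p.1.1.2.2) ^ 2) =
        p.1.1.2.1 + Complex.log (1 - p.1.1.2.2 ^ 2)
      simp
    · change ((0 : ℝ) : ℂ) * p.1.1.2.2 = 0
      simp
  · intro p
    apply Subtype.ext
    apply Subtype.ext
    refine Prod.ext rfl (Prod.ext ?_ ?_)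
    · change p.1.1.2.1 + Complex.log (1 - p.1.1.2.2 ^ 2) -
        Complex.log (1 - (((1 : ℝ) : ℂ) * p.1.1.2.2) ^ 2) = p.1.1.2.1
      simp
    · change ((1 : ℝ) : ℂ) * p.1.1.2.2 = p.1.1.2.2
      simp

theorem rmap_comm : (rmap F).comp (restrC _ (mapsTo_T_inter F)) =
    (Cov.deck F).comp (rmap F) := by
  ext1 p
  apply Subtype.ext
  refine Prod.ext rfl ?_
  change p.1.1.2.1 + 2 * Real.pi * Complex.I + Complex.log (1 - (-p.1.1.2.2) ^ 2) =
    p.1.1.2.1 + Complex.log (1 - p.1.1.2.2 ^ 2) + 2 * Real.pi * Complex.I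
  rw [neg_sq]
  ring

theorem mid_noEig {mu : ℂ} (h : NoEig (Cov.deck F) mu) :
    NoEig (restrC _ (mapsTo_T_inter F)) mu := by
  intro k a ha
  have h1 : Hmap k (Cov.deck F) (Hmap k (rmap F) a) = mu • Hmap k (rmap F) a := by
    rw [← Hmap_comp, ← rmap_comm, Hmap_comp, ha, map_smul]
  have h2 := h k _ h1
  have h3 : Hmap k (imap F) (Hmap k (rmap F) a) = a := by
    rw [← Hmap_comp, Hmap_homotopic k (imap_rmap F), Hmap_id]
  rw [← h3, h2, map_zero]

end

end Pool.Agent.HZ
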