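import Pool.Agent.Lib.MP_3c7f5c_ag.Hom.Basic
import Pool.Agent.Lib.MP_3c7f5c_ag.Hom.MV2
import Pool.Agent.Lib.MP_3c7f5c_ag.Hom.MV3
import Pool.Agent.Lib.MP_3c7f5c_ag.Mon.TS1
import Pool.Agent.Lib.MP_3c7f5c_ag.Mon.TS2

/-!
# HZ-TS3: eigenvalues of the monodromy on the suspension
-/

set_option autoImplicit false

open Set

namespace Pool.Agent.HZ

section
variable {Z : Type} [TopologicalSpace Z] (F : C(Z, ℂ))

theorem TT_left (k : ℕ) (a₁ : Hl k (Up F)) :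
    Hmap k ((Susp.T F).comp (Susp.T F)) (Hmap k (valC (Up F)) a₁) = Hmap k (valC (Up F)) a₁ := by
  have h1 : ((Susp.T F).comp (Susp.T F)).comp (valC (Up F)) =
      (valC (Up F)).comp (restrC _ (mapsTo_TT_Up F)) := rfl
  rw [← Hmap_comp, h1, Hmap_comp, Hmap_homotopic k (TT_Up_homotopic F), Hmap_id]

theorem TT_right (k : ℕ) (a₂ : Hl k (Um F)) :
    Hmap k ((Susp.T F).comp (Susp.T F)) (Hmap k (valC (Um F)) a₂) = Hmap k (valC (Um F)) a₂ := by
  have h1 : ((Susp.T F).comp (Susp.T F)).comp (valC (Um F)) =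
      (valC (Um F)).comp (restrC _ (mapsTo_TT_Um F)) := rfl
  rw [← Hmap_comp, h1, Hmap_comp, Hmap_homotopic k (TT_Um_homotopic F), Hmap_id]

theorem eig_zero {k : ℕ} {lam : ℂ} (h2 : lam ^ 2 ≠ 1) (a : Hl k (Susp F))
    (ha : Hmap k (Susp.T F) a = lam • a) (a₁ : Hl k (Up F)) (a₂ : Hl k (Um F))
    (h : a = Hmap k (valC (Up F)) a₁ + Hmap k (valC (Um F)) a₂) : a = 0 := by
  have h3 : Hmap k ((Susp.T F).comp (Susp.T F)) a = a := by
    rw [h, map_add, TT_left, TT_right]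
  rw [Hmap_comp, ha, map_smul, ha, smul_smul] at h3
  have h4 : (lam * lam - 1) • a = 0 := by
    rw [sub_smul, h3, one_smul, sub_self]
  rcases smul_eq_zero.mp h4 with h5 | h5
  · exact absurd (by rw [pow_two]; exact sub_eq_zero.mp h5) h2
  · exact h5

theorem susp_noEig (lam : ℂ) (h2 : lam ^ 2 ≠ 1) (h : NoEig (Cov.deck F) (-lam)) :
    NoEig (Susp.T F) lam := by
  intro k a ha
  rcases k with _ | k
  · obtain ⟨a₁, a₂, h12⟩ := mv_zero_surj (isOpen_Up F) (isOpen_Um F) (Up_union_Um F) a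
    exact eig_zero F h2 a ha a₁ a₂ h12
  · have hs := mv_swap (isOpen_Up F) (isOpen_Um F) (Up_union_Um F) k (isOpen_Up F) (isOpen_Um F)
      (Up_union_Um F) (Susp.T F) (mapsTo_T_Up F) (mapsTo_T_Um F) (mapsTo_T_inter F) a
    rw [ha, map_smul] at hs
    have hc : mvδ (isOpen_Up F) (isOpen_Um F) (Up_union_Um F) k a = 0 := by
      refine mid_noEig F h k _ ?_
      rw [neg_smul, hs, neg_neg]
    obtain ⟨a₁, a₂, h12⟩ :=
      (mv_exact_X (isOpen_Up F) (isOpen_Um F) (Up_union_Um F) k a).mp hc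
    exact eig_zero F h2 a ha a₁ a₂ h12
end

end Pool.Agent.HZ
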