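import Pool.Agent.Lib.MP_3c7f5c_ag.MonDefs
import Pool.Agent.Lib.MP_3c7f5c_ag.Hom.Basic
import Pool.Agent.Lib.MP_3c7f5c_ag.Mon.Conj

/-!
# Circle actions
-/

set_option autoImplicit false

open Set

namespace Pool.Agent.HZ

/-- `(z, τ) ↦ (z, τ + 2πi m)` -/
private noncomputable def deckN {Z : Type} [TopologicalSpace Z] (F : C(Z, ℂ)) (m : ℕ) :
    C(Cov F, Cov F) where
  toFun p := ⟨(p.1.1, p.1.2 + m * (2 * Real.pi * Complex.I)), by
    rw [p.2, Complex.exp_add, Complex.exp_nat_mul, Complex.exp_two_pi_mul_I, one_pow, mul_one]⟩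
  continuous_toFun := by
    refine Continuous.subtype_mk ?_ _
    exact (continuous_fst.comp continuous_subtype_val).prodMk
      ((continuous_snd.comp continuous_subtype_val).add continuous_const)

private theorem Hmap_deckN {Z : Type} [TopologicalSpace Z] (F : C(Z, ℂ)) (k m : ℕ)
    (a : Hl k (Cov F)) : Hmap k (deckN F m) a = (Hmap k (Cov.deck F))^[m] a := by
  induction m with
  | zero =>
    have h : deckN F 0 = ContinuousMap.id _ := by
      ext p
      apply Subtype.ext
      show (p.1.1, p.1.2 + ((0 : ℕ) : ℂ) * (2 * Real.pi * Complex.I)) = p.1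
      simp
    rw [h, Hmap_id]
    rfl
  | succ m ih =>
    have h : deckN F (m + 1) = (Cov.deck F).comp (deckN F m) := by
      ext p
      apply Subtype.ext
      show (p.1.1, p.1.2 + ((m + 1 : ℕ) : ℂ) * (2 * Real.pi * Complex.I)) =
        (p.1.1, p.1.2 + (m : ℂ) * (2 * Real.pi * Complex.I) + 2 * Real.pi * Complex.I)
      rw [Prod.mk.injEq]
      refine ⟨rfl, ?_⟩
      push_cast
      ring
    rw [h, Hmap_comp, ih, Function.iterate_succ_apply']

/-- `F = exp(ℓ) F₀` with `F₀(ρ_θ z) = e^{imθ} F₀(z)` for a circle action `ρ`: then `T^m ≃ id` -/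
theorem cov_powOne {Z : Type} [TopologicalSpace Z] (F F₀ ℓ : C(Z, ℂ))
    (hF : ∀ z, F z = Complex.exp (ℓ z) * F₀ z) (ρ : C(ℝ × Z, Z)) (h0 : ∀ z, ρ (0, z) = z)
    (h1 : ∀ z, ρ (2 * Real.pi, z) = z) (m : ℕ)
    (hρ : ∀ θ z, F₀ (ρ (θ, z)) = Complex.exp (m * θ * Complex.I) * F₀ z) :
    PowOne (Cov.deck F) m := by
  intro k a
  rw [← Hmap_deckN]
  have hmem : ∀ (θ : ℝ) (p : Cov F), F (ρ (θ, p.1.1)) =
      Complex.exp (p.1.2 + m * θ * Complex.I + ℓ (ρ (θ, p.1.1)) - ℓ p.1.1) := by
    intro θ p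
    have h2 := p.2
    rw [hF] at h2
    have h3 : F₀ p.1.1 = Complex.exp p.1.2 * Complex.exp (-ℓ p.1.1) := by
      rw [← h2, Complex.exp_neg]
      field_simp
    rw [hF, hρ, h3, ← Complex.exp_add, ← Complex.exp_add, ← Complex.exp_add]
    congr 1
    ring
  let H : ContinuousMap.Homotopy (ContinuousMap.id (Cov F)) (deckN F m) :=
    { toFun := fun q => ⟨(ρ (2 * Real.pi * (q.1 : ℝ), q.2.1.1),
        q.2.1.2 + m * ((2 * Real.pi * (q.1 : ℝ) : ℝ) : ℂ) * Complex.I +
          ℓ (ρ (2 * Real.pi * (q.1 : ℝ), q.2.1.1)) - ℓ q.2.1.1),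
        hmem (2 * Real.pi * (q.1 : ℝ)) q.2⟩
      continuous_toFun := by
        refine Continuous.subtype_mk ?_ _
        have c1 : Continuous fun q : unitInterval × Cov F => q.2.1 :=
          continuous_subtype_val.comp continuous_snd
        have c2 : Continuous fun q : unitInterval × Cov F => (2 * Real.pi * (q.1 : ℝ) : ℝ) :=
          continuous_const.mul (continuous_subtype_val.comp continuous_fst)
        have c3 : Continuous fun q : unitInterval × Cov F =>
            ρ (2 * Real.pi * (q.1 : ℝ), q.2.1.1) :=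
          ρ.continuous.comp (c2.prodMk (continuous_fst.comp c1))
        refine c3.prodMk ?_
        refine Continuous.sub ?_ (ℓ.continuous.comp (continuous_fst.comp c1))
        refine Continuous.add ?_ (ℓ.continuous.comp c3)
        refine (continuous_snd.comp c1).add ?_
        exact (continuous_const.mul (Complex.continuous_ofReal.comp c2)).mul continuous_const
      map_zero_left := by
        intro p
        apply Subtype.ext
        have e1 : (2 * Real.pi * (((0 : unitInterval) : unitInterval) : ℝ) : ℝ) = 0 := by simp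
        show (ρ (2 * Real.pi * ((0 : unitInterval) : ℝ), p.1.1),
          p.1.2 + m * ((2 * Real.pi * ((0 : unitInterval) : ℝ) : ℝ) : ℂ) * Complex.I +
          ℓ (ρ (2 * Real.pi * ((0 : unitInterval) : ℝ), p.1.1)) - ℓ p.1.1) = p.1
        rw [e1, h0]
        simp
      map_one_left := by
        intro p
        apply Subtype.ext
        have e1 : (2 * Real.pi * (((1 : unitInterval) : unitInterval) : ℝ) : ℝ) = 2 * Real.pi := by
          simp
        show (ρ (2 * Real.pi * ((1 : unitInterval) : ℝ), p.1.1),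
          p.1.2 + m * ((2 * Real.pi * ((1 : unitInterval) : ℝ) : ℝ) : ℂ) * Complex.I +
          ℓ (ρ (2 * Real.pi * ((1 : unitInterval) : ℝ), p.1.1)) - ℓ p.1.1) =
          (p.1.1, p.1.2 + (m : ℂ) * (2 * Real.pi * Complex.I))
        rw [e1, h1]
        rw [Prod.mk.injEq]
        refine ⟨rfl, ?_⟩
        push_cast
        ring }
  rw [← Hmap_homotopic k ⟨H⟩, Hmap_id]

/-- the same for tubes -/
theorem tube_powOne {n : ℕ} (f f₀ h : MvPolynomial (Fin n) ℂ) (hf : f = h * f₀)
    (V : Set (Fin n → ℂ)) (ℓ : C(V, ℂ))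
    (hℓ : ∀ z : V, MvPolynomial.eval (z : Fin n → ℂ) h = Complex.exp (ℓ z)) (ρ : C(ℝ × V, V))
    (h0 : ∀ z, ρ (0, z) = z) (h1 : ∀ z, ρ (2 * Real.pi, z) = z) (m : ℕ)
    (hρ : ∀ θ z, MvPolynomial.eval (ρ (θ, z) : Fin n → ℂ) f₀ =
      Complex.exp (m * θ * Complex.I) * MvPolynomial.eval (z : Fin n → ℂ) f₀) :
    PowOne (deck f V) m := by
  let F : C(V, ℂ) := ⟨fun z => MvPolynomial.eval (z : Fin n → ℂ) f,
    (MvPolynomial.continuous_eval f).comp continuous_subtype_val⟩
  let F₀ : C(V, ℂ) := ⟨fun z => MvPolynomial.eval (z : Fin n → ℂ) f₀,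
    (MvPolynomial.continuous_eval f₀).comp continuous_subtype_val⟩
  have hcov : PowOne (Cov.deck F) m := by
    refine cov_powOne F F₀ ℓ ?_ ρ h0 h1 m hρ
    intro z
    show MvPolynomial.eval (z : Fin n → ℂ) f =
      Complex.exp (ℓ z) * MvPolynomial.eval (z : Fin n → ℂ) f₀
    rw [← hℓ, hf, map_mul]
  let e : Tube f V ≃ₜ Cov F :=
    { toFun := fun p => ⟨(⟨p.1.1, p.2.1⟩, p.1.2), p.2.2⟩
      invFun := fun p => ⟨(p.1.1.1, p.1.2), p.1.1.2, p.2⟩
      left_inv := fun p => rfl
      right_inv := fun p => rfl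
      continuous_toFun := by
        refine Continuous.subtype_mk ?_ _
        refine Continuous.prodMk ?_ (continuous_snd.comp continuous_subtype_val)
        exact Continuous.subtype_mk (continuous_fst.comp continuous_subtype_val) _
      continuous_invFun := by
        refine Continuous.subtype_mk ?_ _
        refine Continuous.prodMk ?_ (continuous_snd.comp continuous_subtype_val)
        exact continuous_subtype_val.comp (continuous_fst.comp continuous_subtype_val) }
  exact PowOne.of_homeo e (T := deck f V) (T' := Cov.deck F) (fun p => rfl) hcov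

end Pool.Agent.HZ
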