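import Pool.Agent.Lib.MP_3c7f5c_ag.MonDefs

/-!
# Circle actions near points where given polynomials have independent differentials
-/

set_option autoImplicit false

open Set

namespace Pool.Agent.HZ

/-- the differential of a polynomial -/
private noncomputable def dP {n : ℕ} (q : MvPolynomial (Fin n) ℂ) (p : Fin n → ℂ) :
    (Fin n → ℂ) →L[ℂ] ℂ :=
  ∑ j, MvPolynomial.eval p (MvPolynomial.pderiv j q) •
    (ContinuousLinearMap.proj j : (Fin n → ℂ) →L[ℂ] ℂ)

private theorem dP_apply {n : ℕ} (q : MvPolynomial (Fin n) ℂ) (p v : Fin n → ℂ) :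
    dP q p v = ∑ j, MvPolynomial.eval p (MvPolynomial.pderiv j q) * v j := by
  simp [dP]

private theorem ift_deriv {n : ℕ} (q : MvPolynomial (Fin n) ℂ) (p : Fin n → ℂ) :
    HasStrictFDerivAt (fun z : Fin n → ℂ => MvPolynomial.eval z q) (dP q p) p := by
  induction q using MvPolynomial.induction_on with
  | C a =>
    have h : dP (MvPolynomial.C a) p = 0 := by
      ext v
      rw [dP_apply]
      simp
    rw [h]
    simp only [MvPolynomial.eval_C]
    exact hasStrictFDerivAt_const _ _
  | add q₁ q₂ h₁ h₂ =>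
    have h : dP (q₁ + q₂) p = dP q₁ p + dP q₂ p := by
      ext v
      rw [add_apply, dP_apply, dP_apply, dP_apply, ← Finset.sum_add_distrib]
      refine Finset.sum_congr rfl fun j _ => ?_
      rw [map_add, map_add, add_mul]
    rw [h]
    have h2 : (fun z : Fin n → ℂ => MvPolynomial.eval z (q₁ + q₂)) =
        (fun z => MvPolynomial.eval z q₁) + fun z => MvPolynomial.eval z q₂ := by
      ext z
      rw [map_add]
      rfl
    rw [h2]
    exact h₁.add h₂
  | mul_X q i h =>
    have hX : HasStrictFDerivAt (fun z : Fin n → ℂ => z i)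
        (ContinuousLinearMap.proj i : (Fin n → ℂ) →L[ℂ] ℂ) p :=
      (ContinuousLinearMap.proj i : (Fin n → ℂ) →L[ℂ] ℂ).hasStrictFDerivAt
    have h1 := h.mul hX
    have h2 : (fun z : Fin n → ℂ => MvPolynomial.eval z (q * MvPolynomial.X i)) =
        (fun z => MvPolynomial.eval z q) * fun z => z i := by
      ext z
      rw [map_mul, MvPolynomial.eval_X]
      rfl
    rw [h2]
    refine h1.congr_fderiv ?_
    ext v
    rw [dP_apply, add_apply, smul_apply,
      smul_apply, dP_apply, ContinuousLinearMap.proj_apply]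
    have h3 : ∀ j, MvPolynomial.eval p (MvPolynomial.pderiv j (q * MvPolynomial.X i)) * v j =
        MvPolynomial.eval p q * (if i = j then v j else 0) +
          p i * (MvPolynomial.eval p (MvPolynomial.pderiv j q) * v j) := by
      intro j
      rw [Derivation.leibniz, MvPolynomial.pderiv_X, smul_eq_mul, smul_eq_mul, map_add, map_mul,
        map_mul, MvPolynomial.eval_X, Pi.single_apply]
      by_cases hij : i = j
      · subst hij
        simp
        ring
      · rw [if_neg hij, if_neg hij]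
        simp
        ring
    rw [Finset.sum_congr rfl fun j _ => h3 j, Finset.sum_add_distrib, ← Finset.mul_sum,
      ← Finset.mul_sum, Finset.sum_ite_eq, if_pos (Finset.mem_univ i), smul_eq_mul, smul_eq_mul]

private theorem ift_surj {n m : ℕ} (M : Matrix (Fin m) (Fin n) ℂ) (h : LinearIndependent ℂ M.row) :
    LinearMap.range M.mulVecLin = ⊤ := by
  apply Submodule.eq_top_of_finrank_eq
  have := h.rank_matrix
  rw [Matrix.rank] at this
  rw [this]
  simp

/-- circle actions with prescribed weights near a point where the `g i` vanish and have linearly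
independent differentials -/
theorem exists_circle {n m : ℕ} (g : Fin m → MvPolynomial (Fin n) ℂ) (p : Fin n → ℂ)
    (hg0 : ∀ i, MvPolynomial.eval p (g i) = 0)
    (hind : LinearIndependent ℂ (fun (i : Fin m) (j : Fin n) =>
      MvPolynomial.eval p (MvPolynomial.pderiv j (g i))))
    (w : Fin m → ℕ) (U : Set (Fin n → ℂ)) (hU : IsOpen U) (hp : p ∈ U) :
    ∃ V : Set (Fin n → ℂ), IsOpen V ∧ p ∈ V ∧ V ⊆ U ∧ ∃ ρ : C(ℝ × V, V),
      (∀ z, ρ (0, z) = z) ∧ (∀ z, ρ (2 * Real.pi, z) = z) ∧
      ∀ θ z i, MvPolynomial.eval (ρ (θ, z) : Fin n → ℂ) (g i) =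
        Complex.exp (w i * θ * Complex.I) * MvPolynomial.eval (z : Fin n → ℂ) (g i) := by
  set G : (Fin n → ℂ) → (Fin m → ℂ) := fun z i => MvPolynomial.eval z (g i) with hG
  set G' : (Fin n → ℂ) →L[ℂ] (Fin m → ℂ) := ContinuousLinearMap.pi fun i => dP (g i) p with hG'
  have hd : HasStrictFDerivAt G G' p := hasStrictFDerivAt_pi.mpr fun i => ift_deriv (g i) p
  have hr : G'.range = ⊤ := by
    rw [← ift_surj (Matrix.of fun i j => MvPolynomial.eval p (MvPolynomial.pderiv j (g i))) hind]
    congr 1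
    refine LinearMap.ext fun v => ?_
    ext i
    change dP (g i) p v = _
    rw [dP_apply]
    rfl
  set φ := hd.implicitToOpenPartialHomeomorph G G' hr with hφ
  have hφ1 : ∀ z, (φ z).1 = G z := fun z => HasStrictFDerivAt.implicitToOpenPartialHomeomorph_fst hd hr z
  have hφp : φ p = (0, 0) := by
    rw [hφ, HasStrictFDerivAt.implicitToOpenPartialHomeomorph_self]
    congr 1
    ext i
    exact hg0 i
  have hps : p ∈ φ.source := hd.mem_implicitToOpenPartialHomeomorph_source hr
  have hW : IsOpen (φ.target ∩ φ.symm ⁻¹' U) := φ.isOpen_inter_preimage_symm hU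
  have hW0 : ((0, 0) : (Fin m → ℂ) × G'.ker) ∈ φ.target ∩ φ.symm ⁻¹' U := by
    rw [← hφp]
    refine ⟨φ.map_source hps, ?_⟩
    rw [mem_preimage, φ.left_inv hps]
    exact hp
  obtain ⟨r, hr0, hrW⟩ := Metric.isOpen_iff.mp hW _ hW0
  rw [← ball_prod_same] at hrW
  set B : Set ((Fin m → ℂ) × G'.ker) := Metric.ball 0 r ×ˢ Metric.ball 0 r with hB
  have hBo : IsOpen B := Metric.isOpen_ball.prod Metric.isOpen_ball
  set V : Set (Fin n → ℂ) := φ.source ∩ φ ⁻¹' B with hV
  have hVo : IsOpen V := φ.isOpen_inter_preimage hBo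
  have hrot : ∀ (θ : ℝ) (y : (Fin m → ℂ) × G'.ker), y ∈ B →
      ((fun i => Complex.exp (w i * θ * Complex.I) * y.1 i, y.2) : (Fin m → ℂ) × G'.ker) ∈ B := by
    intro θ y hy
    refine ⟨?_, hy.2⟩
    have h1 : y.1 ∈ Metric.ball (0 : Fin m → ℂ) r := hy.1
    rw [mem_ball_zero_iff, pi_norm_lt_iff hr0] at h1 ⊢
    intro i
    have h2 : ‖Complex.exp (w i * θ * Complex.I)‖ = 1 := by
      have : (w i * θ * Complex.I : ℂ) = ((w i * θ : ℝ) : ℂ) * Complex.I := by push_cast; ring
      rw [this, Complex.norm_exp_ofReal_mul_I]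
    rw [norm_mul, h2, one_mul]
    exact h1 i
  have hmem : ∀ y ∈ B, φ.symm y ∈ V := by
    intro y hy
    have hyt : y ∈ φ.target := (hrW hy).1
    exact ⟨φ.map_target hyt, by rw [mem_preimage, φ.right_inv hyt]; exact hy⟩
  refine ⟨V, hVo, ⟨hps, by rw [mem_preimage, hφp]; exact ⟨Metric.mem_ball_self hr0, Metric.mem_ball_self hr0⟩⟩,
    ?_, ⟨fun x => ⟨φ.symm (fun i => Complex.exp (w i * x.1 * Complex.I) * (φ x.2).1 i, (φ x.2).2),
      hmem _ (hrot x.1 _ x.2.2.2)⟩, ?_⟩, ?_, ?_, ?_⟩
  · rintro z ⟨hz1, hz2⟩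
    have := (hrW hz2).2
    rwa [mem_preimage, φ.left_inv hz1] at this
  · refine Continuous.subtype_mk ?_ _
    have h1 : Continuous fun x : ℝ × V => φ x.2 := by
      refine φ.continuousOn.comp_continuous (continuous_subtype_val.comp continuous_snd) ?_
      intro x
      exact x.2.2.1
    have h2 : Continuous fun x : ℝ × V =>
        ((fun i => Complex.exp (w i * x.1 * Complex.I) * (φ x.2).1 i, (φ x.2).2) : (Fin m → ℂ) × G'.ker) := by
      refine Continuous.prodMk (continuous_pi fun i => ?_) (continuous_snd.comp h1)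
      refine Continuous.mul ?_ ((continuous_apply i).comp (continuous_fst.comp h1))
      fun_prop
    refine φ.symm.continuousOn.comp_continuous h2 ?_
    intro x
    exact (hrW (hrot x.1 _ x.2.2.2)).1
  · intro z
    apply Subtype.ext
    change φ.symm (fun i => Complex.exp (w i * (0 : ℝ) * Complex.I) * (φ z).1 i, (φ z).2) = z
    simp only [Complex.ofReal_zero, mul_zero, zero_mul, Complex.exp_zero, one_mul]
    exact φ.left_inv z.2.1
  · intro z
    apply Subtype.ext
    change φ.symm (fun i => Complex.exp (w i * (2 * Real.pi : ℝ) * Complex.I) * (φ z).1 i, (φ z).2) = z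
    have h1 : ∀ i, Complex.exp (w i * (2 * Real.pi : ℝ) * Complex.I) = 1 := by
      intro i
      have : (w i * (2 * Real.pi : ℝ) * Complex.I : ℂ) = (w i : ℂ) * (2 * Real.pi * Complex.I) := by
        push_cast; ring
      rw [this, Complex.exp_nat_mul_two_pi_mul_I]
    simp only [h1, one_mul]
    exact φ.left_inv z.2.1
  · intro θ z i
    change MvPolynomial.eval (φ.symm (fun i => Complex.exp (w i * θ * Complex.I) * (φ z).1 i, (φ z).2)) (g i) = _
    have h1 := hφ1 (φ.symm (fun i => Complex.exp (w i * θ * Complex.I) * (φ z).1 i, (φ z).2))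
    rw [φ.right_inv (hrW (hrot θ _ z.2.2)).1] at h1
    have h2 := congrFun h1 i
    have h3 := congrFun (hφ1 z) i
    simp only [hG] at h2 h3
    rw [← h2, ← h3]

end Pool.Agent.HZ
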