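import Pool.Agent.Lib.MP_3c7f5c_ag.Mon.Alg
import Pool.Agent.Lib.MP_3c7f5c_ag.Mon.Circ
import Pool.Agent.Lib.MP_3c7f5c_ag.Mon.Ift

/-!
# The local statement for functions which are homogeneous in suitable local coordinates
-/

open Set

namespace Pool.Agent.HZ

/-- a unit has a continuous logarithm near `p` -/
theorem local_log {n : ℕ} (h : MvPolynomial (Fin n) ℂ) (p : Fin n → ℂ)
    (hh : MvPolynomial.eval p h ≠ 0) (V : Set (Fin n → ℂ))
    (hV : ∀ z ∈ V, ‖MvPolynomial.eval z h - MvPolynomial.eval p h‖ < ‖MvPolynomial.eval p h‖) :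
    ∃ ℓ : C(V, ℂ), ∀ z : V, MvPolynomial.eval (z : Fin n → ℂ) h = Complex.exp (ℓ z) := by
  have hslit : ∀ z : V, MvPolynomial.eval (z : Fin n → ℂ) h / MvPolynomial.eval p h ∈
      Complex.slitPlane := by
    intro z
    have h1 := hV z z.2
    have hpos : 0 < ‖MvPolynomial.eval p h‖ := norm_pos_iff.2 hh
    have h2 : ‖MvPolynomial.eval (z : Fin n → ℂ) h / MvPolynomial.eval p h - 1‖ < 1 := by
      rw [div_sub_one hh, norm_div, div_lt_one hpos]
      exact h1
    rw [Complex.mem_slitPlane_iff]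
    left
    have h3 := Complex.abs_re_le_norm
      (MvPolynomial.eval (z : Fin n → ℂ) h / MvPolynomial.eval p h - 1)
    rw [Complex.sub_re, Complex.one_re] at h3
    have h4 := abs_lt.1 (h3.trans_lt h2)
    linarith [h4.1]
  have hc : Continuous fun z : V => MvPolynomial.eval (z : Fin n → ℂ) h :=
    (MvPolynomial.continuous_eval h).comp continuous_subtype_val
  refine ⟨⟨fun z => Complex.log (MvPolynomial.eval p h) +
    Complex.log (MvPolynomial.eval (z : Fin n → ℂ) h / MvPolynomial.eval p h), ?_⟩, ?_⟩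
  · exact continuous_const.add ((hc.div_const _).clog hslit)
  · intro z
    show MvPolynomial.eval (z : Fin n → ℂ) h = Complex.exp (Complex.log (MvPolynomial.eval p h) +
      Complex.log (MvPolynomial.eval (z : Fin n → ℂ) h / MvPolynomial.eval p h))
    rw [Complex.exp_add, Complex.exp_log hh, Complex.exp_log (Complex.slitPlane_ne_zero (hslit z)),
      mul_div_cancel₀ _ hh]

theorem LS_of_local {n m : ℕ} (f : MvPolynomial (Fin n) ℂ) (p : Fin n → ℂ)
    (g : Fin m → MvPolynomial (Fin n) ℂ) (hg0 : ∀ i, MvPolynomial.eval p (g i) = 0)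
    (hind : LinearIndependent ℂ (fun (i : Fin m) (j : Fin n) =>
      MvPolynomial.eval p (MvPolynomial.pderiv j (g i))))
    (w : Fin m → ℕ) (h : MvPolynomial (Fin n) ℂ) (hh : MvPolynomial.eval p h ≠ 0)
    (f₀ : MvPolynomial (Fin n) ℂ) (hf : f = h * f₀) (k : ℕ) (hk : k = 1 ∨ k = 2)
    (hf₀ : ∀ (t : ℂ) (z z' : Fin n → ℂ),
      (∀ i, MvPolynomial.eval z' (g i) = t ^ w i * MvPolynomial.eval z (g i)) →
      MvPolynomial.eval z' f₀ = t ^ k * MvPolynomial.eval z f₀) : LS f p := by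
  intro U hU hpU
  set W : Set (Fin n → ℂ) :=
    {z | ‖MvPolynomial.eval z h - MvPolynomial.eval p h‖ < ‖MvPolynomial.eval p h‖} with hW
  have hWo : IsOpen W :=
    isOpen_lt ((MvPolynomial.continuous_eval h).sub continuous_const).norm continuous_const
  have hpW : p ∈ W := by
    show ‖MvPolynomial.eval p h - MvPolynomial.eval p h‖ < ‖MvPolynomial.eval p h‖
    rw [sub_self, norm_zero]
    exact norm_pos_iff.2 hh
  obtain ⟨V, hVo, hpV, hVU, ρ, hρ0, hρ1, hρ⟩ :=
    exists_circle g p hg0 hind w (U ∩ W) (hU.inter hWo) ⟨hpU, hpW⟩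
  obtain ⟨ℓ, hℓ⟩ := local_log h p hh V fun z hz => (hVU hz).2
  refine ⟨V, hVo, hpV, fun z hz => (hVU hz).1, ?_⟩
  have hpow : PowOne (deck f V) k := by
    refine tube_powOne f f₀ h hf V ℓ hℓ ρ hρ0 hρ1 k fun θ z => ?_
    have h1 := hf₀ (Complex.exp (θ * Complex.I)) (z : Fin n → ℂ) (ρ (θ, z) : Fin n → ℂ)
      fun i => by rw [hρ θ z i, ← Complex.exp_nat_mul, mul_assoc]
    rw [h1, ← Complex.exp_nat_mul, mul_assoc]
  refine Kill.of_pow_two (hpow.of_dvd ?_)
  rcases hk with rfl | rfl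
  · norm_num
  · norm_num

end Pool.Agent.HZ
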