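import Pool.Agent.Lib.MP_3c7f5c_ag.Mon.Local

/-!
# The local statement at the points of `f0 = 0` outside the two special planes
-/

set_option autoImplicit false

open Set

namespace Pool.Agent.HZ

open MvPolynomial

private noncomputable def PX : MvPolynomial (Fin 5) ℂ := X 0 - X 1 ^ 2
private noncomputable def PU : MvPolynomial (Fin 5) ℂ := X 3 - X 4 ^ 2
private noncomputable def PG : MvPolynomial (Fin 5) ℂ := X 0 * X 3 + X 2 ^ 2

private theorem f0_eq : f0 = PX ^ 2 * PU ^ 2 * PG := rfl

section
variable (p : Fin 5 → ℂ)

private theorem eval_PX : eval p PX = p 0 - p 1 ^ 2 := by simp [PX]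
private theorem eval_PU : eval p PU = p 3 - p 4 ^ 2 := by simp [PU]
private theorem eval_PG : eval p PG = p 0 * p 3 + p 2 ^ 2 := by simp [PG]

private theorem dX0 : eval p (pderiv 0 PX) = 1 := by simp [PX, pderiv_X]
private theorem dX1 : eval p (pderiv 1 PX) = -2 * p 1 := by simp [PX, pderiv_X]
private theorem dX2 : eval p (pderiv 2 PX) = 0 := by simp [PX, pderiv_X]
private theorem dX3 : eval p (pderiv 3 PX) = 0 := by simp [PX, pderiv_X]
private theorem dX4 : eval p (pderiv 4 PX) = 0 := by simp [PX, pderiv_X]
private theorem dU0 : eval p (pderiv 0 PU) = 0 := by simp [PU, pderiv_X]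
private theorem dU1 : eval p (pderiv 1 PU) = 0 := by simp [PU, pderiv_X]
private theorem dU2 : eval p (pderiv 2 PU) = 0 := by simp [PU, pderiv_X]
private theorem dU3 : eval p (pderiv 3 PU) = 1 := by simp [PU, pderiv_X]
private theorem dU4 : eval p (pderiv 4 PU) = -2 * p 4 := by simp [PU, pderiv_X]
private theorem dG0 : eval p (pderiv 0 PG) = p 3 := by simp [PG, pderiv_X]
private theorem dG1 : eval p (pderiv 1 PG) = 0 := by simp [PG, pderiv_X]
private theorem dG2 : eval p (pderiv 2 PG) = 2 * p 2 := by simp [PG, pderiv_X]
private theorem dG3 : eval p (pderiv 3 PG) = p 0 := by simp [PG, pderiv_X]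
private theorem dG4 : eval p (pderiv 4 PG) = 0 := by simp [PG, pderiv_X]

private theorem li {m : ℕ} (g : Fin m → MvPolynomial (Fin 5) ℂ)
    (h : ∀ c : Fin m → ℂ, (∀ j, ∑ i, c i * eval p (pderiv j (g i)) = 0) → ∀ i, c i = 0) :
    LinearIndependent ℂ (fun (i : Fin m) (j : Fin 5) => eval p (pderiv j (g i))) := by
  rw [Fintype.linearIndependent_iff]
  intro c hc
  refine h c fun j => ?_
  have := congrFun hc j
  simpa [Finset.sum_apply, smul_eq_mul] using this
end

theorem LS_generic (x : Fin 5 → ℂ) (hx : MvPolynomial.eval x f0 = 0)
    (h1 : ¬ (x 0 = 0 ∧ x 1 = 0 ∧ x 2 = 0)) (h2 : ¬ (x 3 = 0 ∧ x 4 = 0 ∧ x 2 = 0)) :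
    LS f0 x := by
  by_cases hG : eval x PG = 0
  · by_cases hs : x 0 = 0 ∧ x 3 = 0 ∧ x 2 = 0
    · obtain ⟨h0, h3, h22⟩ := hs
      have hy : x 1 ≠ 0 := fun h => h1 ⟨h0, h, h22⟩
      have hv : x 4 ≠ 0 := fun h => h2 ⟨h3, h, h22⟩
      refine LS_of_local f0 x (![X 0, X 2, X 3]) ?_ (li x _ ?_) (fun _ => 1) (PX ^ 2 * PU ^ 2) ?_
        (X 0 * X 3 + X 2 ^ 2) ?_ 2 (Or.inr rfl) ?_
      · intro i
        fin_cases i <;> simp [h0, h3, h22]
      · intro c hc
        have e0 := hc 0
        have e2 := hc 2
        have e3 := hc 3
        simp [Fin.sum_univ_three, pderiv_X] at e0 e2 e3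
        intro i
        fin_cases i
        · exact e0
        · exact e2
        · exact e3
      · rw [map_mul, map_pow, map_pow, eval_PX, eval_PU, h0, h3]
        simp [hy, hv]
      · rw [f0_eq, PG]
      · intro t z z' hz
        have e0 := hz 0
        have e1 := hz 1
        have e2 := hz 2
        simp at e0 e1 e2
        simp only [map_add, map_mul, map_pow, eval_X]
        rw [e0, e1, e2]
        ring
    · have hG0 : x 0 * x 3 + x 2 ^ 2 = 0 := by rw [← eval_PG]; exact hG
      by_cases ha : eval x PX = 0
      · have ha0 : x 0 = x 1 ^ 2 := by
          rw [eval_PX] at ha; exact sub_eq_zero.mp ha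
        by_cases hb : eval x PU = 0
        · have hb0 : x 3 = x 4 ^ 2 := by
            rw [eval_PU] at hb; exact sub_eq_zero.mp hb
          refine LS_of_local f0 x (![PG, PX, PU]) ?_ (li x _ ?_) (![1, 0, 0]) 1 ?_
            (PG * PX ^ 2 * PU ^ 2) ?_ 1 (Or.inl rfl) ?_
          · intro i
            fin_cases i
            · exact hG
            · exact ha
            · exact hb
          · intro c hc
            have e0 := hc 0
            have e1 := hc 1
            have e2 := hc 2
            have e3 := hc 3
            have e4 := hc 4
            simp only [Fin.sum_univ_three, Matrix.cons_val_zero, Matrix.cons_val_one, Matrix.cons_val,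
              dX0, dX1, dX2, dX3, dX4, dU0, dU1, dU2, dU3, dU4, dG0, dG1, dG2, dG3, dG4] at e0 e1 e2 e3 e4
            have hc0 : c 0 = 0 := by
              by_contra hne
              have w0 : x 2 = 0 := by
                have : c 0 * x 2 = 0 := by linear_combination e2 / 2
                exact (mul_eq_zero.mp this).resolve_left hne
              have hyu : x 1 * x 3 = 0 := by
                have : c 0 * (x 1 * x 3) = 0 := by linear_combination x 1 * e0 + e1 / 2
                exact (mul_eq_zero.mp this).resolve_left hne
              have hvx : x 4 * x 0 = 0 := by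
                have : c 0 * (x 4 * x 0) = 0 := by linear_combination x 4 * e3 + e4 / 2
                exact (mul_eq_zero.mp this).resolve_left hne
              rcases mul_eq_zero.mp hyu with hy | hu
              · exact h1 ⟨by rw [ha0, hy]; ring, hy, w0⟩
              · have hv : x 4 = 0 := by
                  rw [hu] at hb0
                  exact pow_eq_zero_iff (two_ne_zero) |>.mp hb0.symm
                exact h2 ⟨hu, hv, w0⟩
            rw [hc0] at e0 e3
            intro i
            fin_cases i
            · exact hc0
            · change c 1 = 0
              linear_combination e0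
            · change c 2 = 0
              linear_combination e3
          · simp
          · rw [f0_eq]; ring
          · intro t z z' hz
            have e0 := hz 0
            have e1 := hz 1
            have e2 := hz 2
            simp only [Matrix.cons_val_zero, Matrix.cons_val_one, Matrix.cons_val, pow_zero, pow_one,
              one_mul] at e0 e1 e2
            simp only [map_mul, map_pow, e0, e1, e2]
            ring
        · refine LS_of_local f0 x (![PG, PX]) ?_ (li x _ ?_) (![1, 0]) (PU ^ 2) ?_
            (PG * PX ^ 2) ?_ 1 (Or.inl rfl) ?_
          · intro i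
            fin_cases i
            · exact hG
            · exact ha
          · intro c hc
            have e0 := hc 0
            have e1 := hc 1
            have e2 := hc 2
            have e3 := hc 3
            simp only [Fin.sum_univ_two, Matrix.cons_val_zero, Matrix.cons_val_one, Matrix.cons_val,
              dX0, dX1, dX2, dX3, dX4, dU0, dU1, dU2, dU3, dU4, dG0, dG1, dG2, dG3, dG4] at e0 e1 e2 e3
            have hc0 : c 0 = 0 := by
              by_contra hne
              have w0 : x 2 = 0 := by
                have : c 0 * x 2 = 0 := by linear_combination e2 / 2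
                exact (mul_eq_zero.mp this).resolve_left hne
              have hx0 : x 0 = 0 := by
                have : c 0 * x 0 = 0 := by linear_combination e3
                exact (mul_eq_zero.mp this).resolve_left hne
              have hy : x 1 = 0 := by
                rw [hx0] at ha0
                exact pow_eq_zero_iff (two_ne_zero) |>.mp ha0.symm
              exact h1 ⟨hx0, hy, w0⟩
            rw [hc0] at e0
            intro i
            fin_cases i
            · exact hc0
            · change c 1 = 0
              linear_combination e0
          · rw [map_pow]; exact pow_ne_zero _ hb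
          · rw [f0_eq]; ring
          · intro t z z' hz
            have e0 := hz 0
            have e1 := hz 1
            simp only [Matrix.cons_val_zero, Matrix.cons_val_one, Matrix.cons_val, pow_zero, pow_one,
              one_mul] at e0 e1
            simp only [map_mul, map_pow, e0, e1]
            ring
      · by_cases hb : eval x PU = 0
        · have hb0 : x 3 = x 4 ^ 2 := by
            rw [eval_PU] at hb; exact sub_eq_zero.mp hb
          refine LS_of_local f0 x (![PG, PU]) ?_ (li x _ ?_) (![1, 0]) (PX ^ 2) ?_
            (PG * PU ^ 2) ?_ 1 (Or.inl rfl) ?_
          · intro i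
            fin_cases i
            · exact hG
            · exact hb
          · intro c hc
            have e0 := hc 0
            have e2 := hc 2
            have e3 := hc 3
            have e4 := hc 4
            simp only [Fin.sum_univ_two, Matrix.cons_val_zero, Matrix.cons_val_one, Matrix.cons_val,
              dX0, dX1, dX2, dX3, dX4, dU0, dU1, dU2, dU3, dU4, dG0, dG1, dG2, dG3, dG4] at e0 e2 e3 e4
            have hc0 : c 0 = 0 := by
              by_contra hne
              have w0 : x 2 = 0 := by
                have : c 0 * x 2 = 0 := by linear_combination e2 / 2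
                exact (mul_eq_zero.mp this).resolve_left hne
              have hx3 : x 3 = 0 := by
                have : c 0 * x 3 = 0 := by linear_combination e0
                exact (mul_eq_zero.mp this).resolve_left hne
              have hv : x 4 = 0 := by
                rw [hx3] at hb0
                exact pow_eq_zero_iff (two_ne_zero) |>.mp hb0.symm
              exact h2 ⟨hx3, hv, w0⟩
            rw [hc0] at e3
            intro i
            fin_cases i
            · exact hc0
            · change c 1 = 0
              linear_combination e3
          · rw [map_pow]; exact pow_ne_zero _ ha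
          · rw [f0_eq]; ring
          · intro t z z' hz
            have e0 := hz 0
            have e1 := hz 1
            simp only [Matrix.cons_val_zero, Matrix.cons_val_one, Matrix.cons_val, pow_zero, pow_one,
              one_mul] at e0 e1
            simp only [map_mul, map_pow, e0, e1]
            ring
        · refine LS_of_local f0 x (fun _ : Fin 1 => PG) (fun _ => hG) (li x _ ?_) (fun _ => 1)
            (PX ^ 2 * PU ^ 2) ?_ PG ?_ 1 (Or.inl rfl) ?_
          · intro c hc i
            have hi : i = 0 := Subsingleton.elim _ _
            subst hi
            have e0 := hc 0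
            have e2 := hc 2
            have e3 := hc 3
            simp only [Fin.sum_univ_one, dG0, dG2, dG3] at e0 e2 e3
            by_contra hne
            refine hs ⟨(mul_eq_zero.mp e3).resolve_left hne, (mul_eq_zero.mp e0).resolve_left hne, ?_⟩
            have : c 0 * x 2 = 0 := by linear_combination e2 / 2
            exact (mul_eq_zero.mp this).resolve_left hne
          · rw [map_mul, map_pow, map_pow]
            exact mul_ne_zero (pow_ne_zero _ ha) (pow_ne_zero _ hb)
          · rw [f0_eq]
          · intro t z z' hz
            simpa using hz 0
  · by_cases ha : eval x PX = 0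
    · by_cases hb : eval x PU = 0
      · refine LS_of_local f0 x (![PX, PU]) ?_ (li x _ ?_) (![1, 0]) PG hG
          (PX ^ 2 * PU ^ 2) ?_ 2 (Or.inr rfl) ?_
        · intro i
          fin_cases i
          · exact ha
          · exact hb
        · intro c hc
          have e0 := hc 0
          have e3 := hc 3
          simp only [Fin.sum_univ_two, Matrix.cons_val_zero, Matrix.cons_val_one, Matrix.cons_val,
              dX0, dX1, dX2, dX3, dX4, dU0, dU1, dU2, dU3, dU4] at e0 e3
          intro i
          fin_cases i
          · change c 0 = 0
            linear_combination e0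
          · change c 1 = 0
            linear_combination e3
        · rw [f0_eq]; ring
        · intro t z z' hz
          have e0 := hz 0
          have e1 := hz 1
          simp only [Matrix.cons_val_zero, Matrix.cons_val_one, Matrix.cons_val, pow_zero, pow_one,
              one_mul] at e0 e1
          simp only [map_mul, map_pow, e0, e1]
          ring
      · refine LS_of_local f0 x (fun _ : Fin 1 => PX) (fun _ => ha) (li x _ ?_) (fun _ => 1)
            (PU ^ 2 * PG) ?_ (PX ^ 2) ?_ 2 (Or.inr rfl) ?_
        · intro c hc i
          have hi : i = 0 := Subsingleton.elim _ _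
          subst hi
          have e0 := hc 0
          simp only [Fin.sum_univ_one, dX0] at e0
          linear_combination e0
        · rw [map_mul, map_pow]
          exact mul_ne_zero (pow_ne_zero _ hb) hG
        · rw [f0_eq]; ring
        · intro t z z' hz
          have e0 := hz 0
          rw [map_pow, map_pow, e0]
          ring
    · have hb : eval x PU = 0 := by
        rw [f0_eq, map_mul, map_mul, map_pow, map_pow] at hx
        by_contra hb
        exact mul_ne_zero (mul_ne_zero (pow_ne_zero _ ha) (pow_ne_zero _ hb)) hG hx
      refine LS_of_local f0 x (fun _ : Fin 1 => PU) (fun _ => hb) (li x _ ?_) (fun _ => 1)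
            (PX ^ 2 * PG) ?_ (PU ^ 2) ?_ 2 (Or.inr rfl) ?_
      · intro c hc i
        have hi : i = 0 := Subsingleton.elim _ _
        subst hi
        have e3 := hc 3
        simp only [Fin.sum_univ_one, dU3] at e3
        linear_combination e3
      · rw [map_mul, map_pow]
        exact mul_ne_zero (pow_ne_zero _ ha) hG
      · rw [f0_eq]; ring
      · intro t z z' hz
        have e0 := hz 0
        rw [map_pow, map_pow, e0]
        ring

end Pool.Agent.HZ
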