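import Pool.Agent.Lib.MP_3c7f5c_ag.Mon.Circ

/-!
# Expansion: the tube over a small polydisc is homotopy equivalent to the tube over `Vinf`
-/

set_option autoImplicit false

open Set

namespace Pool.Agent.HZ

theorem Vr_subset_Vinf (r : ℝ) (D : Set (ℂ × ℂ)) : Vr r D ⊆ Vinf D := fun _ hz => hz.2.2.2

/-- the scaling `(t² x, t y, t w, u, v)` -/
private noncomputable def exd (t : ℂ) (z : Fin 5 → ℂ) : Fin 5 → ℂ :=
  ![t ^ 2 * z 0, t * z 1, t * z 2, z 3, z 4]

private lemma exd_f0 (t : ℂ) (z : Fin 5 → ℂ) :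
    MvPolynomial.eval (exd t z) f0 = t ^ 6 * MvPolynomial.eval z f0 := by
  unfold f0 exd
  simp only [map_mul, map_pow, map_sub, map_add, MvPolynomial.eval_X]
  simp [Matrix.cons_val_zero, Matrix.cons_val_one]
  ring

private lemma exd_cont {A : Type} [TopologicalSpace A] (t : A → ℂ) (z : A → Fin 5 → ℂ)
    (ht : Continuous t) (hz : Continuous z) : Continuous fun a => exd (t a) (z a) := by
  have hzi : ∀ i, Continuous fun a => z a i := fun i => (continuous_apply i).comp hz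
  refine continuous_pi fun i => ?_
  fin_cases i
  · exact (ht.pow 2).mul (hzi 0)
  · exact ht.mul (hzi 1)
  · exact ht.mul (hzi 2)
  · exact hzi 3
  · exact hzi 4

/-- `log t₀` -/
private noncomputable def exl (r : ℝ) (z : Fin 5 → ℂ) : ℝ :=
  Real.log (r / (1 + r + ‖z 0‖ + ‖z 1‖ + ‖z 2‖))

private lemma exl_pos (r : ℝ) (hr : 0 < r) (z : Fin 5 → ℂ) :
    0 < r / (1 + r + ‖z 0‖ + ‖z 1‖ + ‖z 2‖) := by positivity

private lemma exl_neg (r : ℝ) (hr : 0 < r) (z : Fin 5 → ℂ) : exl r z ≤ 0 := by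
  refine Real.log_nonpos (exl_pos r hr z).le ?_
  rw [div_le_one (by positivity)]
  have h0 := norm_nonneg (z 0)
  have h1 := norm_nonneg (z 1)
  have h2 := norm_nonneg (z 2)
  linarith

private lemma exl_cont (r : ℝ) (hr : 0 < r) : Continuous (exl r) := by
  refine Continuous.log ?_ (fun z => (exl_pos r hr z).ne')
  refine Continuous.div continuous_const ?_ (fun z => by positivity)
  exact (((continuous_const).add (continuous_apply 0).norm).add (continuous_apply 1).norm).add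
    (continuous_apply 2).norm

private lemma exd_mem (r : ℝ) (hr : 0 < r) (D : Set (ℂ × ℂ)) (z : Fin 5 → ℂ) (hz : z ∈ Vinf D) :
    exd ((Real.exp (exl r z) : ℝ) : ℂ) z ∈ Vr r D := by
  have h1 : Real.exp (exl r z) = r / (1 + r + ‖z 0‖ + ‖z 1‖ + ‖z 2‖) :=
    Real.exp_log (exl_pos r hr z)
  rw [h1]
  have n0 := norm_nonneg (z 0)
  have n1 := norm_nonneg (z 1)
  have n2 := norm_nonneg (z 2)
  obtain ⟨S, hS⟩ : ∃ S : ℝ, S = 1 + r + ‖z 0‖ + ‖z 1‖ + ‖z 2‖ := ⟨_, rfl⟩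
  rw [← hS]
  have hS0 : 0 < S := by rw [hS]; positivity
  have hn : ‖((r / S : ℝ) : ℂ)‖ = r / S := by
    rw [Complex.norm_real, Real.norm_of_nonneg (by positivity)]
  refine ⟨?_, ?_, ?_, hz⟩
  · show ‖((r / S : ℝ) : ℂ) ^ 2 * z 0‖ < r ^ 2
    rw [norm_mul, norm_pow, hn, div_pow, div_mul_eq_mul_div, div_lt_iff₀ (by positivity)]
    have h2 : ‖z 0‖ < S ^ 2 := by nlinarith
    exact mul_lt_mul_of_pos_left h2 (by positivity)
  · show ‖((r / S : ℝ) : ℂ) * z 1‖ < r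
    rw [norm_mul, hn, div_mul_eq_mul_div, div_lt_iff₀ hS0]
    exact mul_lt_mul_of_pos_left (by linarith) hr
  · show ‖((r / S : ℝ) : ℂ) * z 2‖ < r
    rw [norm_mul, hn, div_mul_eq_mul_div, div_lt_iff₀ hS0]
    exact mul_lt_mul_of_pos_left (by linarith) hr

private lemma exd_mem_r (r : ℝ) (D : Set (ℂ × ℂ)) (z : Fin 5 → ℂ) (hz : z ∈ Vr r D)
    (t : ℝ) (ht0 : 0 ≤ t) (ht1 : t ≤ 1) : exd ((t : ℝ) : ℂ) z ∈ Vr r D := by
  obtain ⟨h0, h1, h2, h3⟩ := hz
  have hn : ‖((t : ℝ) : ℂ)‖ = t := by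
    rw [Complex.norm_real, Real.norm_of_nonneg ht0]
  refine ⟨?_, ?_, ?_, h3⟩
  · show ‖((t : ℝ) : ℂ) ^ 2 * z 0‖ < r ^ 2
    rw [norm_mul, norm_pow, hn]
    have h4 : t ^ 2 ≤ 1 := pow_le_one₀ ht0 ht1
    exact (mul_le_of_le_one_left (norm_nonneg _) h4).trans_lt h0
  · show ‖((t : ℝ) : ℂ) * z 1‖ < r
    rw [norm_mul, hn]
    exact (mul_le_of_le_one_left (norm_nonneg _) ht1).trans_lt h1
  · show ‖((t : ℝ) : ℂ) * z 2‖ < r
    rw [norm_mul, hn]
    exact (mul_le_of_le_one_left (norm_nonneg _) ht1).trans_lt h2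

private lemma exd_mem_inf (D : Set (ℂ × ℂ)) (z : Fin 5 → ℂ) (hz : z ∈ Vinf D) (t : ℂ) :
    exd t z ∈ Vinf D := hz

/-- the family `(δ(t₀^s, z), τ + 6 s log t₀)` -/
private noncomputable def exg (r : ℝ) (s : ℝ) (p : (Fin 5 → ℂ) × ℂ) : (Fin 5 → ℂ) × ℂ :=
  (exd ((Real.exp (s * exl r p.1) : ℝ) : ℂ) p.1, p.2 + 6 * ((s * exl r p.1 : ℝ) : ℂ))

private lemma exg_eq (r s : ℝ) (p : (Fin 5 → ℂ) × ℂ)
    (hp : MvPolynomial.eval p.1 f0 = Complex.exp p.2) :
    MvPolynomial.eval (exg r s p).1 f0 = Complex.exp (exg r s p).2 := by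
  show MvPolynomial.eval (exd ((Real.exp (s * exl r p.1) : ℝ) : ℂ) p.1) f0 =
    Complex.exp (p.2 + 6 * ((s * exl r p.1 : ℝ) : ℂ))
  rw [exd_f0, hp, Complex.exp_add, Complex.ofReal_exp]
  have h2 : Complex.exp (6 * ((s * exl r p.1 : ℝ) : ℂ)) =
      Complex.exp ((s * exl r p.1 : ℝ) : ℂ) ^ 6 := by
    rw [← Complex.exp_nat_mul]
    push_cast
    rfl
  rw [h2]
  ring

private lemma exg_cont (r : ℝ) (hr : 0 < r) {A : Type} [TopologicalSpace A] (s : A → ℝ)
    (p : A → (Fin 5 → ℂ) × ℂ) (hs : Continuous s) (hp : Continuous p) :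
    Continuous fun a => exg r (s a) (p a) := by
  have h1 : Continuous fun a => (p a).1 := continuous_fst.comp hp
  have h2 : Continuous fun a => s a * exl r (p a).1 := hs.mul ((exl_cont r hr).comp h1)
  exact (exd_cont _ _ (Complex.continuous_ofReal.comp (Real.continuous_exp.comp h2)) h1).prodMk
    ((continuous_snd.comp hp).add (continuous_const.mul (Complex.continuous_ofReal.comp h2)))

private lemma exd_one (z : Fin 5 → ℂ) : exd 1 z = z := by
  funext i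
  fin_cases i <;> simp [exd]

private lemma exg_zero (r : ℝ) (p : (Fin 5 → ℂ) × ℂ) : exg r 0 p = p := by
  unfold exg
  rw [zero_mul, Real.exp_zero, Complex.ofReal_one, exd_one]
  simp

theorem tube_expand (r : ℝ) (hr : 0 < r) (D : Set (ℂ × ℂ)) :
    ∃ e : ContinuousMap.HomotopyEquiv (Tube f0 (Vr r D)) (Tube f0 (Vinf D)),
      e.toFun = tubeIncl f0 (Vr_subset_Vinf r D) := by
  have hval1 : Continuous fun p : Tube f0 (Vr r D) => p.1 := continuous_subtype_val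
  have hval2 : Continuous fun p : Tube f0 (Vinf D) => p.1 := continuous_subtype_val
  refine ⟨⟨tubeIncl f0 (Vr_subset_Vinf r D),
    ⟨fun p => ⟨exg r 1 p.1, by
      show exd ((Real.exp (1 * exl r p.1.1) : ℝ) : ℂ) p.1.1 ∈ Vr r D
      rw [one_mul]
      exact exd_mem r hr D p.1.1 p.2.1, exg_eq r 1 p.1 p.2.2⟩,
      Continuous.subtype_mk (exg_cont r hr _ _ continuous_const hval2) _⟩, ?_, ?_⟩, rfl⟩
  · refine ContinuousMap.Homotopic.symm ⟨⟨⟨fun a => ⟨exg r a.1 a.2.1,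
      exd_mem_r r D a.2.1.1 a.2.2.1 _ (Real.exp_pos _).le (Real.exp_le_one_iff.2
        (mul_nonpos_of_nonneg_of_nonpos a.1.2.1 (exl_neg r hr _))), exg_eq r a.1 a.2.1 a.2.2.2⟩,
      Continuous.subtype_mk (exg_cont r hr _ _ (continuous_subtype_val.comp continuous_fst)
        (hval1.comp continuous_snd)) _⟩, fun p => ?_, fun p => ?_⟩⟩
    · exact Subtype.ext (exg_zero r p.1)
    · exact Subtype.ext rfl
  · refine ContinuousMap.Homotopic.symm ⟨⟨⟨fun a => ⟨exg r a.1 a.2.1,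
      exd_mem_inf D a.2.1.1 a.2.2.1 _, exg_eq r a.1 a.2.1 a.2.2.2⟩,
      Continuous.subtype_mk (exg_cont r hr _ _ (continuous_subtype_val.comp continuous_fst)
        (hval2.comp continuous_snd)) _⟩, fun p => ?_, fun p => ?_⟩⟩
    · exact Subtype.ext (exg_zero r p.1)
    · exact Subtype.ext rfl

theorem tube_powOne6 (r : ℝ) (D : Set (ℂ × ℂ)) : PowOne (deck f0 (Vr r D)) 6 := by
  have hz : Continuous fun a : ℝ × Vr r D => (a.2 : Fin 5 → ℂ) :=
    continuous_subtype_val.comp continuous_snd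
  have hθ : Continuous fun a : ℝ × Vr r D => Complex.exp ((a.1 : ℂ) * Complex.I) :=
    Complex.continuous_exp.comp
      ((Complex.continuous_ofReal.comp continuous_fst).mul continuous_const)
  have hn : ∀ θ : ℝ, ‖Complex.exp ((θ : ℂ) * Complex.I)‖ = 1 := Complex.norm_exp_ofReal_mul_I
  have hmem : ∀ a : ℝ × Vr r D, exd (Complex.exp ((a.1 : ℂ) * Complex.I)) a.2 ∈ Vr r D := by
    intro a
    obtain ⟨h0, h1, h2, h3⟩ := a.2.2
    refine ⟨?_, ?_, ?_, h3⟩
    · show ‖Complex.exp ((a.1 : ℂ) * Complex.I) ^ 2 * a.2.1 0‖ < r ^ 2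
      rw [norm_mul, norm_pow, hn, one_pow, one_mul]
      exact h0
    · show ‖Complex.exp ((a.1 : ℂ) * Complex.I) * a.2.1 1‖ < r
      rw [norm_mul, hn, one_mul]
      exact h1
    · show ‖Complex.exp ((a.1 : ℂ) * Complex.I) * a.2.1 2‖ < r
      rw [norm_mul, hn, one_mul]
      exact h2
  refine tube_powOne f0 f0 1 (one_mul _).symm (Vr r D) 0 (fun z => ?_)
    ⟨fun a => ⟨exd (Complex.exp ((a.1 : ℂ) * Complex.I)) a.2, hmem a⟩,
      Continuous.subtype_mk (exd_cont _ _ hθ hz) hmem⟩ (fun z => ?_) (fun z => ?_) 6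
    (fun θ z => ?_)
  · simp
  · refine Subtype.ext ?_
    show exd (Complex.exp (((0 : ℝ) : ℂ) * Complex.I)) z.1 = z.1
    rw [Complex.ofReal_zero, zero_mul, Complex.exp_zero, exd_one]
  · refine Subtype.ext ?_
    show exd (Complex.exp (((2 * Real.pi : ℝ) : ℂ) * Complex.I)) z.1 = z.1
    have h1 : Complex.exp (((2 * Real.pi : ℝ) : ℂ) * Complex.I) = 1 := by
      push_cast
      exact Complex.exp_two_pi_mul_I
    rw [h1, exd_one]
  · show MvPolynomial.eval (exd (Complex.exp ((θ : ℂ) * Complex.I)) z.1) f0 =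
      Complex.exp (((6 : ℕ) : ℂ) * θ * Complex.I) * MvPolynomial.eval z.1 f0
    have h1 : Complex.exp (((6 : ℕ) : ℂ) * θ * Complex.I) =
        Complex.exp ((θ : ℂ) * Complex.I) ^ 6 := by
      rw [← Complex.exp_nat_mul, mul_assoc]
    rw [exd_f0, h1]

end Pool.Agent.HZ
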