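import Pool.Agent.Lib.MP_3c7f5c_ag.MonDefs

/-!
# The tube of `f0` over `{(u, v) ∈ D}` as a suspension
-/

open Set

namespace Pool.Agent.HZ

private theorem eval_f0' (z : Fin 5 → ℂ) : MvPolynomial.eval z f0 =
    (z 0 - z 1 ^ 2) ^ 2 * (z 3 - z 4 ^ 2) ^ 2 * (z 0 * z 3 + z 2 ^ 2) := by
  simp [f0]

private theorem fwd_ne (D : Set (ℂ × ℂ)) (p : Tube f0 (Vinf D)) :
    p.1.1 0 - p.1.1 1 ^ 2 ≠ 0 ∧ p.1.1 3 - p.1.1 4 ^ 2 ≠ 0 := by
  have h := p.2.2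
  rw [eval_f0'] at h
  have hne : (p.1.1 0 - p.1.1 1 ^ 2) ^ 2 * (p.1.1 3 - p.1.1 4 ^ 2) ^ 2 *
      (p.1.1 0 * p.1.1 3 + p.1.1 2 ^ 2) ≠ 0 := by
    rw [h]
    exact Complex.exp_ne_zero _
  constructor
  · intro h0
    rw [h0] at hne
    simp at hne
  · intro h0
    rw [h0] at hne
    simp at hne

private theorem exp_half (τ : ℂ) : Complex.exp (τ / 2) ^ 2 = Complex.exp τ := by
  rw [← Complex.exp_nat_mul]
  congr 1
  push_cast
  ring

private theorem exp_half' (τ : ℂ) : Complex.exp (-τ / 2) * Complex.exp (τ / 2) = 1 := by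
  rw [← Complex.exp_add]
  rw [show -τ / 2 + τ / 2 = 0 by ring, Complex.exp_zero]

private theorem fwd_eq (D : Set (ℂ × ℂ)) (p : Tube f0 (Vinf D)) :
    (p.1.1 0 - p.1.1 1 ^ 2) ^ 2 * (p.1.1 3 - p.1.1 4 ^ 2) ^ 2 * (p.1.1 0 * p.1.1 3) =
      (1 - ((p.1.1 0 - p.1.1 1 ^ 2) * (p.1.1 3 - p.1.1 4 ^ 2) * p.1.1 2 *
        Complex.exp (-p.1.2 / 2)) ^ 2) * Complex.exp p.1.2 := by
  have h := p.2.2
  rw [eval_f0'] at h
  have h1 := exp_half' p.1.2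
  have h2 := exp_half p.1.2
  have h3 : Complex.exp (-p.1.2 / 2) ^ 2 * Complex.exp p.1.2 = 1 := by
    rw [← h2, ← mul_pow, h1, one_pow]
  linear_combination h + ((p.1.1 0 - p.1.1 1 ^ 2) * (p.1.1 3 - p.1.1 4 ^ 2) * p.1.1 2) ^ 2 * h3

/-- the forward map -/
private noncomputable def fwd (D : Set (ℂ × ℂ)) (p : Tube f0 (Vinf D)) : Susp (F1 D) :=
  ⟨(⟨(p.1.1 0, p.1.1 1, p.1.1 3, p.1.1 4), (fwd_ne D p).1, (fwd_ne D p).2, p.2.1⟩, p.1.2,
    (p.1.1 0 - p.1.1 1 ^ 2) * (p.1.1 3 - p.1.1 4 ^ 2) * p.1.1 2 * Complex.exp (-p.1.2 / 2)),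
    fwd_eq D p⟩

/-- the coordinates of the backward map -/
private noncomputable def bwdv (D : Set (ℂ × ℂ)) (p : Susp (F1 D)) : Fin 5 → ℂ :=
  ![p.1.1.1.1, p.1.1.1.2.1, p.1.2.2 * Complex.exp (p.1.2.1 / 2) /
    ((p.1.1.1.1 - p.1.1.1.2.1 ^ 2) * (p.1.1.1.2.2.1 - p.1.1.1.2.2.2 ^ 2)),
    p.1.1.1.2.2.1, p.1.1.1.2.2.2]

private theorem bwd_eq (D : Set (ℂ × ℂ)) (p : Susp (F1 D)) :
    MvPolynomial.eval (bwdv D p) f0 = Complex.exp p.1.2.1 := by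
  rw [eval_f0']
  have h : (p.1.1.1.1 - p.1.1.1.2.1 ^ 2) ^ 2 * (p.1.1.1.2.2.1 - p.1.1.1.2.2.2 ^ 2) ^ 2 *
      (p.1.1.1.1 * p.1.1.1.2.2.1) = (1 - p.1.2.2 ^ 2) * Complex.exp p.1.2.1 := p.2
  have h1 := p.1.1.2.1
  have h2 := p.1.1.2.2.1
  have h3 := exp_half p.1.2.1
  change (p.1.1.1.1 - p.1.1.1.2.1 ^ 2) ^ 2 * (p.1.1.1.2.2.1 - p.1.1.1.2.2.2 ^ 2) ^ 2 *
    (p.1.1.1.1 * p.1.1.1.2.2.1 + (p.1.2.2 * Complex.exp (p.1.2.1 / 2) /
    ((p.1.1.1.1 - p.1.1.1.2.1 ^ 2) * (p.1.1.1.2.2.1 - p.1.1.1.2.2.2 ^ 2))) ^ 2) = _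
  have h4 : (p.1.1.1.1 - p.1.1.1.2.1 ^ 2) ^ 2 * (p.1.1.1.2.2.1 - p.1.1.1.2.2.2 ^ 2) ^ 2 *
      (p.1.2.2 * Complex.exp (p.1.2.1 / 2) /
    ((p.1.1.1.1 - p.1.1.1.2.1 ^ 2) * (p.1.1.1.2.2.1 - p.1.1.1.2.2.2 ^ 2))) ^ 2 =
      p.1.2.2 ^ 2 * Complex.exp p.1.2.1 := by
    rw [← h3]
    field_simp
  linear_combination h + h4

/-- the backward map -/
private noncomputable def bwd (D : Set (ℂ × ℂ)) (p : Susp (F1 D)) : Tube f0 (Vinf D) :=
  ⟨(bwdv D p, p.1.2.1), p.1.1.2.2.2, bwd_eq D p⟩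

private theorem continuous_fwd (D : Set (ℂ × ℂ)) : Continuous (fwd D) := by
  have h : Continuous fun p : Tube f0 (Vinf D) => p.1 := continuous_subtype_val
  have hz : ∀ i : Fin 5, Continuous fun p : Tube f0 (Vinf D) => p.1.1 i := fun i =>
    (continuous_apply i).comp (continuous_fst.comp h)
  have ht : Continuous fun p : Tube f0 (Vinf D) => p.1.2 := continuous_snd.comp h
  refine Continuous.subtype_mk ?_ _
  refine Continuous.prodMk ?_ (Continuous.prodMk ht ?_)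
  · refine Continuous.subtype_mk ?_ _
    exact (hz 0).prodMk ((hz 1).prodMk ((hz 3).prodMk (hz 4)))
  · exact ((((hz 0).sub ((hz 1).pow 2)).mul ((hz 3).sub ((hz 4).pow 2))).mul (hz 2)).mul
      (Complex.continuous_exp.comp (ht.neg.div_const 2))

private theorem continuous_bwd (D : Set (ℂ × ℂ)) : Continuous (bwd D) := by
  have h : Continuous fun p : Susp (F1 D) => p.1 := continuous_subtype_val
  have h1 : Continuous fun p : Susp (F1 D) => p.1.1.1 :=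
    continuous_subtype_val.comp (continuous_fst.comp h)
  have hx : Continuous fun p : Susp (F1 D) => p.1.1.1.1 := continuous_fst.comp h1
  have hy : Continuous fun p : Susp (F1 D) => p.1.1.1.2.1 :=
    continuous_fst.comp (continuous_snd.comp h1)
  have hu : Continuous fun p : Susp (F1 D) => p.1.1.1.2.2.1 :=
    continuous_fst.comp (continuous_snd.comp (continuous_snd.comp h1))
  have hv : Continuous fun p : Susp (F1 D) => p.1.1.1.2.2.2 :=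
    continuous_snd.comp (continuous_snd.comp (continuous_snd.comp h1))
  have ht : Continuous fun p : Susp (F1 D) => p.1.2.1 := continuous_fst.comp (continuous_snd.comp h)
  have hq : Continuous fun p : Susp (F1 D) => p.1.2.2 := continuous_snd.comp (continuous_snd.comp h)
  refine Continuous.subtype_mk (Continuous.prodMk ?_ ht) _
  refine continuous_pi fun i => ?_
  fin_cases i
  · exact hx
  · exact hy
  · refine Continuous.div (hq.mul (Complex.continuous_exp.comp (ht.div_const 2)))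
      ((hx.sub (hy.pow 2)).mul (hu.sub (hv.pow 2))) fun p => ?_
    exact mul_ne_zero p.1.1.2.1 p.1.1.2.2.1
  · exact hu
  · exact hv

theorem homeo1 (D : Set (ℂ × ℂ)) : ∃ e : Tube f0 (Vinf D) ≃ₜ Susp (F1 D),
    ∀ p, e (deck f0 (Vinf D) p) = Susp.T (F1 D) (e p) := by
  refine ⟨{ toFun := fwd D
            invFun := bwd D
            left_inv := ?_
            right_inv := ?_
            continuous_toFun := continuous_fwd D
            continuous_invFun := continuous_bwd D }, ?_⟩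
  · intro p
    apply Subtype.ext
    refine Prod.ext ?_ rfl
    funext i
    fin_cases i
    · rfl
    · rfl
    · change (p.1.1 0 - p.1.1 1 ^ 2) * (p.1.1 3 - p.1.1 4 ^ 2) * p.1.1 2 *
        Complex.exp (-p.1.2 / 2) * Complex.exp (p.1.2 / 2) /
        ((p.1.1 0 - p.1.1 1 ^ 2) * (p.1.1 3 - p.1.1 4 ^ 2)) = p.1.1 2
      have h1 := (fwd_ne D p).1
      have h2 := (fwd_ne D p).2
      rw [mul_assoc _ (Complex.exp (-p.1.2 / 2)), exp_half']
      field_simp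
    · rfl
    · rfl
  · intro p
    apply Subtype.ext
    refine Prod.ext rfl (Prod.ext rfl ?_)
    change (p.1.1.1.1 - p.1.1.1.2.1 ^ 2) * (p.1.1.1.2.2.1 - p.1.1.1.2.2.2 ^ 2) *
      (p.1.2.2 * Complex.exp (p.1.2.1 / 2) /
      ((p.1.1.1.1 - p.1.1.1.2.1 ^ 2) * (p.1.1.1.2.2.1 - p.1.1.1.2.2.2 ^ 2))) *
      Complex.exp (-p.1.2.1 / 2) = p.1.2.2
    have h1 := p.1.1.2.1
    have h2 := p.1.1.2.2.1
    have h3 := exp_half' p.1.2.1
    have h4 : (p.1.1.1.1 - p.1.1.1.2.1 ^ 2) * (p.1.1.1.2.2.1 - p.1.1.1.2.2.2 ^ 2) *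
      (p.1.2.2 * Complex.exp (p.1.2.1 / 2) /
      ((p.1.1.1.1 - p.1.1.1.2.1 ^ 2) * (p.1.1.1.2.2.1 - p.1.1.1.2.2.2 ^ 2))) =
      p.1.2.2 * Complex.exp (p.1.2.1 / 2) := by
      field_simp
    rw [h4, mul_assoc, mul_comm (Complex.exp (p.1.2.1 / 2)), h3, mul_one]
  · intro p
    apply Subtype.ext
    refine Prod.ext rfl (Prod.ext rfl ?_)
    change (p.1.1 0 - p.1.1 1 ^ 2) * (p.1.1 3 - p.1.1 4 ^ 2) * p.1.1 2 *
        Complex.exp (-(p.1.2 + 2 * Real.pi * Complex.I) / 2) =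
      -((p.1.1 0 - p.1.1 1 ^ 2) * (p.1.1 3 - p.1.1 4 ^ 2) * p.1.1 2 *
        Complex.exp (-p.1.2 / 2))
    have h : Complex.exp (-(p.1.2 + 2 * Real.pi * Complex.I) / 2) = - Complex.exp (-p.1.2 / 2) := by
      rw [show -(p.1.2 + 2 * Real.pi * Complex.I) / 2 = -p.1.2 / 2 + -(Real.pi * Complex.I) by ring,
        Complex.exp_add, Complex.exp_neg, Complex.exp_pi_mul_I]
      norm_num
    rw [h]
    ring

end Pool.Agent.HZ
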