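import Pool.Agent.Lib.MP_3c7f5c_ag.Mon.Circ

/-!
# The double covering of `Cov F₁` is a suspension
-/

set_option autoImplicit false

open Set

namespace Pool.Agent.HZ

theorem uFun_ne_zero (D : Set (ℂ × ℂ)) (p : Cov (F1 D)) : uFun D p ≠ 0 := by
  intro h
  have h1 : (F1 D) p.1.1 = Complex.exp p.1.2 := p.2
  have h2 : (F1 D) p.1.1 = (p.1.1.1.1 - p.1.1.1.2.1 ^ 2) ^ 2 *
      (p.1.1.1.2.2.1 - p.1.1.1.2.2.2 ^ 2) ^ 2 * (p.1.1.1.1 * p.1.1.1.2.2.1) := rfl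
  have h3 : p.1.1.1.2.2.1 = 0 := h
  rw [h2, h3] at h1
  simp only [mul_zero] at h1
  exact Complex.exp_ne_zero _ h1.symm

private lemma hm2_exp (t : ℂ) : Complex.exp (-t / 2) ^ 2 * Complex.exp t = 1 := by
  rw [← Complex.exp_nat_mul, ← Complex.exp_add]
  rw [show ((2 : ℕ) : ℂ) * (-t / 2) + t = 0 by push_cast; ring, Complex.exp_zero]

private lemma hm2_exp2 (t : ℂ) : Complex.exp (-t / 2) * Complex.exp (t / 2) = 1 := by
  rw [← Complex.exp_add, show -t / 2 + t / 2 = 0 by ring, Complex.exp_zero]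

private lemma hm2_exp3 (t : ℂ) : Complex.exp (t / 2) ^ 2 = Complex.exp t := by
  rw [← Complex.exp_nat_mul]
  congr 1
  push_cast
  ring

private noncomputable def hm2_to (D : Set (ℂ × ℂ)) (p : DCov (uFun D)) : Susp (F2 D) :=
  ⟨(⟨(p.1.1.1.1.1.1 - p.1.1.1.1.1.2.1 ^ 2, p.1.1.1.1.1.2.2.2, p.1.2), by
    have hs : p.1.2 ^ 2 = p.1.1.1.1.1.2.2.1 := p.2
    refine ⟨p.1.1.1.1.2.1, ?_, ?_, ?_⟩
    · intro h
      have h1 : p.1.2 = 0 := h
      rw [h1] at hs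
      apply uFun_ne_zero D p.1.1
      show p.1.1.1.1.1.2.2.1 = 0
      rw [← hs]
      ring
    · show p.1.2 ^ 2 - p.1.1.1.1.1.2.2.2 ^ 2 ≠ 0
      rw [hs]
      exact p.1.1.1.1.2.2.1
    · show (p.1.2 ^ 2, p.1.1.1.1.1.2.2.2) ∈ D
      rw [hs]
      exact p.1.1.1.1.2.2.2⟩, p.1.1.1.2,
      (p.1.1.1.1.1.1 - p.1.1.1.1.1.2.1 ^ 2) * p.1.1.1.1.1.2.1 *
        (p.1.2 ^ 2 - p.1.1.1.1.1.2.2.2 ^ 2) * p.1.2 * Complex.exp (-p.1.1.1.2 / 2)), by
    have hs : p.1.2 ^ 2 = p.1.1.1.1.1.2.2.1 := p.2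
    have h1 : (p.1.1.1.1.1.1 - p.1.1.1.1.1.2.1 ^ 2) ^ 2 *
      (p.1.1.1.1.1.2.2.1 - p.1.1.1.1.1.2.2.2 ^ 2) ^ 2 *
        (p.1.1.1.1.1.1 * p.1.1.1.1.1.2.2.1) = Complex.exp p.1.1.1.2 := p.1.1.2
    show (p.1.1.1.1.1.1 - p.1.1.1.1.1.2.1 ^ 2) ^ 3 *
      ((p.1.2 ^ 2 - p.1.1.1.1.1.2.2.2 ^ 2) ^ 2 * p.1.2 ^ 2) =
      (1 - ((p.1.1.1.1.1.1 - p.1.1.1.1.1.2.1 ^ 2) * p.1.1.1.1.1.2.1 *
        (p.1.2 ^ 2 - p.1.1.1.1.1.2.2.2 ^ 2) * p.1.2 * Complex.exp (-p.1.1.1.2 / 2)) ^ 2) *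
        Complex.exp p.1.1.1.2
    have h2 := hm2_exp p.1.1.1.2
    rw [← hs] at h1
    linear_combination ((p.1.1.1.1.1.1 - p.1.1.1.1.1.2.1 ^ 2) * p.1.1.1.1.1.2.1 *
        (p.1.2 ^ 2 - p.1.1.1.1.1.2.2.2 ^ 2) * p.1.2) ^ 2 * h2 + h1⟩

private noncomputable def hm2_den (D : Set (ℂ × ℂ)) (p : Susp (F2 D)) : ℂ :=
  p.1.1.1.1 * (p.1.1.1.2.2 ^ 2 - p.1.1.1.2.1 ^ 2) * p.1.1.1.2.2

private lemma hm2_den_ne (D : Set (ℂ × ℂ)) (p : Susp (F2 D)) : hm2_den D p ≠ 0 :=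
  mul_ne_zero (mul_ne_zero p.1.1.2.1 p.1.1.2.2.2.1) p.1.1.2.2.1

private noncomputable def hm2_y (D : Set (ℂ × ℂ)) (p : Susp (F2 D)) : ℂ :=
  p.1.2.2 * Complex.exp (p.1.2.1 / 2) / hm2_den D p

private lemma hm2_y_mul (D : Set (ℂ × ℂ)) (p : Susp (F2 D)) :
    hm2_y D p * hm2_den D p = p.1.2.2 * Complex.exp (p.1.2.1 / 2) :=
  div_mul_cancel₀ _ (hm2_den_ne D p)

private noncomputable def hm2_inv (D : Set (ℂ × ℂ)) (p : Susp (F2 D)) : DCov (uFun D) :=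
  ⟨(⟨(⟨(p.1.1.1.1 + hm2_y D p ^ 2, hm2_y D p, p.1.1.1.2.2 ^ 2, p.1.1.1.2.1), by
    refine ⟨?_, p.1.1.2.2.2.1, p.1.1.2.2.2.2⟩
    show p.1.1.1.1 + hm2_y D p ^ 2 - hm2_y D p ^ 2 ≠ 0
    rw [add_sub_cancel_right]
    exact p.1.1.2.1⟩, p.1.2.1), by
    show (p.1.1.1.1 + hm2_y D p ^ 2 - hm2_y D p ^ 2) ^ 2 *
      (p.1.1.1.2.2 ^ 2 - p.1.1.1.2.1 ^ 2) ^ 2 *
        ((p.1.1.1.1 + hm2_y D p ^ 2) * p.1.1.1.2.2 ^ 2) = Complex.exp p.1.2.1
    have h1 : p.1.1.1.1 ^ 3 * ((p.1.1.1.2.2 ^ 2 - p.1.1.1.2.1 ^ 2) ^ 2 * p.1.1.1.2.2 ^ 2) =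
      (1 - p.1.2.2 ^ 2) * Complex.exp p.1.2.1 := p.2
    have h2 := hm2_y_mul D p
    have h3 := hm2_exp3 p.1.2.1
    unfold hm2_den at h2
    linear_combination h1 + (hm2_y D p * (p.1.1.1.1 * (p.1.1.1.2.2 ^ 2 - p.1.1.1.2.1 ^ 2) *
      p.1.1.1.2.2) + p.1.2.2 * Complex.exp (p.1.2.1 / 2)) * h2 + p.1.2.2 ^ 2 * h3⟩,
    p.1.1.1.2.2), rfl⟩

private lemma hm2_to_cont (D : Set (ℂ × ℂ)) : Continuous (hm2_to D) := by
  have h0 : Continuous fun p : DCov (uFun D) => p.1 := continuous_subtype_val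
  have h1 : Continuous fun p : DCov (uFun D) => p.1.1.1 :=
    continuous_subtype_val.comp (continuous_fst.comp h0)
  have h2 : Continuous fun p : DCov (uFun D) => p.1.1.1.1.1 :=
    continuous_subtype_val.comp (continuous_fst.comp h1)
  have hx : Continuous fun p : DCov (uFun D) => p.1.1.1.1.1.1 := continuous_fst.comp h2
  have hy : Continuous fun p : DCov (uFun D) => p.1.1.1.1.1.2.1 :=
    continuous_fst.comp (continuous_snd.comp h2)
  have hv : Continuous fun p : DCov (uFun D) => p.1.1.1.1.1.2.2.2 :=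
    continuous_snd.comp (continuous_snd.comp (continuous_snd.comp h2))
  have ht : Continuous fun p : DCov (uFun D) => p.1.1.1.2 := continuous_snd.comp h1
  have hs : Continuous fun p : DCov (uFun D) => p.1.2 := continuous_snd.comp h0
  refine Continuous.subtype_mk ?_ _
  refine Continuous.prodMk (Continuous.subtype_mk ?_ _) (Continuous.prodMk ht ?_)
  · exact (hx.sub (hy.pow 2)).prodMk (hv.prodMk hs)
  · exact ((((hx.sub (hy.pow 2)).mul hy).mul ((hs.pow 2).sub (hv.pow 2))).mul hs).mul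
      (Complex.continuous_exp.comp (ht.neg.div_const 2))

private lemma hm2_inv_cont (D : Set (ℂ × ℂ)) : Continuous (hm2_inv D) := by
  have h0 : Continuous fun p : Susp (F2 D) => p.1 := continuous_subtype_val
  have h1 : Continuous fun p : Susp (F2 D) => p.1.1.1 :=
    continuous_subtype_val.comp (continuous_fst.comp h0)
  have hx : Continuous fun p : Susp (F2 D) => p.1.1.1.1 := continuous_fst.comp h1
  have hv : Continuous fun p : Susp (F2 D) => p.1.1.1.2.1 :=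
    continuous_fst.comp (continuous_snd.comp h1)
  have hs : Continuous fun p : Susp (F2 D) => p.1.1.1.2.2 :=
    continuous_snd.comp (continuous_snd.comp h1)
  have ht : Continuous fun p : Susp (F2 D) => p.1.2.1 :=
    continuous_fst.comp (continuous_snd.comp h0)
  have hq : Continuous fun p : Susp (F2 D) => p.1.2.2 :=
    continuous_snd.comp (continuous_snd.comp h0)
  have hy : Continuous (hm2_y D) := by
    unfold hm2_y
    refine Continuous.div (hq.mul (Complex.continuous_exp.comp (ht.div_const 2))) ?_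
      (hm2_den_ne D)
    exact (hx.mul ((hs.pow 2).sub (hv.pow 2))).mul hs
  refine Continuous.subtype_mk ?_ _
  refine Continuous.prodMk (Continuous.subtype_mk ?_ _) hs
  refine Continuous.prodMk (Continuous.subtype_mk ?_ _) ht
  exact (hx.add (hy.pow 2)).prodMk (hy.prodMk ((hs.pow 2).prodMk hv))

private lemma hm2_left (D : Set (ℂ × ℂ)) (p : DCov (uFun D)) : hm2_inv D (hm2_to D p) = p := by
  have hs : p.1.2 ^ 2 = p.1.1.1.1.1.2.2.1 := p.2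
  have hy : hm2_y D (hm2_to D p) = p.1.1.1.1.1.2.1 := by
    have h1 := hm2_y_mul D (hm2_to D p)
    have h2 := hm2_den_ne D (hm2_to D p)
    apply mul_right_cancel₀ h2
    rw [h1]
    show (p.1.1.1.1.1.1 - p.1.1.1.1.1.2.1 ^ 2) * p.1.1.1.1.1.2.1 *
        (p.1.2 ^ 2 - p.1.1.1.1.1.2.2.2 ^ 2) * p.1.2 * Complex.exp (-p.1.1.1.2 / 2) *
        Complex.exp (p.1.1.1.2 / 2) = p.1.1.1.1.1.2.1 *
        ((p.1.1.1.1.1.1 - p.1.1.1.1.1.2.1 ^ 2) * (p.1.2 ^ 2 - p.1.1.1.1.1.2.2.2 ^ 2) * p.1.2)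
    have h3 := hm2_exp2 p.1.1.1.2
    linear_combination ((p.1.1.1.1.1.1 - p.1.1.1.1.1.2.1 ^ 2) * p.1.1.1.1.1.2.1 *
        (p.1.2 ^ 2 - p.1.1.1.1.1.2.2.2 ^ 2) * p.1.2) * h3
  refine Subtype.ext (Prod.ext (Subtype.ext (Prod.ext (Subtype.ext ?_) rfl)) rfl)
  show ((p.1.1.1.1.1.1 - p.1.1.1.1.1.2.1 ^ 2) + hm2_y D (hm2_to D p) ^ 2,
    hm2_y D (hm2_to D p), p.1.2 ^ 2, p.1.1.1.1.1.2.2.2) = p.1.1.1.1.1
  rw [hy, hs, sub_add_cancel]

private lemma hm2_right (D : Set (ℂ × ℂ)) (p : Susp (F2 D)) : hm2_to D (hm2_inv D p) = p := by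
  refine Subtype.ext (Prod.ext (Subtype.ext ?_) (Prod.ext rfl ?_))
  · show (p.1.1.1.1 + hm2_y D p ^ 2 - hm2_y D p ^ 2, p.1.1.1.2.1, p.1.1.1.2.2) = p.1.1.1
    rw [add_sub_cancel_right]
  · show (p.1.1.1.1 + hm2_y D p ^ 2 - hm2_y D p ^ 2) * hm2_y D p *
      (p.1.1.1.2.2 ^ 2 - p.1.1.1.2.1 ^ 2) * p.1.1.1.2.2 * Complex.exp (-p.1.2.1 / 2) = p.1.2.2
    have h2 := hm2_y_mul D p
    have h3 := hm2_exp2 p.1.2.1
    unfold hm2_den at h2
    linear_combination Complex.exp (-p.1.2.1 / 2) * h2 + p.1.2.2 * h3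

theorem homeo2 (D : Set (ℂ × ℂ)) : ∃ e : DCov (uFun D) ≃ₜ Susp (F2 D),
    ∀ p, e (T2 D p) = Susp.T (F2 D) (e p) := by
  refine ⟨⟨⟨hm2_to D, hm2_inv D, hm2_left D, hm2_right D⟩, hm2_to_cont D, hm2_inv_cont D⟩, ?_⟩
  intro p
  show hm2_to D (T2 D p) = Susp.T (F2 D) (hm2_to D p)
  refine Subtype.ext (Prod.ext (Subtype.ext rfl) (Prod.ext rfl ?_))
  show (p.1.1.1.1.1.1 - p.1.1.1.1.1.2.1 ^ 2) * p.1.1.1.1.1.2.1 *
        (p.1.2 ^ 2 - p.1.1.1.1.1.2.2.2 ^ 2) * p.1.2 *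
        Complex.exp (-(p.1.1.1.2 + 2 * Real.pi * Complex.I) / 2) =
      -((p.1.1.1.1.1.1 - p.1.1.1.1.1.2.1 ^ 2) * p.1.1.1.1.1.2.1 *
        (p.1.2 ^ 2 - p.1.1.1.1.1.2.2.2 ^ 2) * p.1.2 * Complex.exp (-p.1.1.1.2 / 2))
  have h1 : Complex.exp (-(p.1.1.1.2 + 2 * Real.pi * Complex.I) / 2) =
      -Complex.exp (-p.1.1.1.2 / 2) := by
    rw [show -(p.1.1.1.2 + 2 * Real.pi * Complex.I) / 2 =
      -p.1.1.1.2 / 2 - Real.pi * Complex.I by ring, Complex.exp_sub, Complex.exp_pi_mul_I]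
    ring
  rw [h1]
  ring

theorem F2_powOne (D : Set (ℂ × ℂ)) : PowOne (Cov.deck (F2 D)) 3 := by
  have hz : Continuous fun a : ℝ × Z2 D => a.2.1 := continuous_subtype_val.comp continuous_snd
  have hθ : Continuous fun a : ℝ × Z2 D => Complex.exp ((a.1 : ℂ) * Complex.I) :=
    Complex.continuous_exp.comp
      ((Complex.continuous_ofReal.comp continuous_fst).mul continuous_const)
  refine cov_powOne (F2 D) (F2 D) 0 (fun z => ?_)
    ⟨fun a => ⟨(Complex.exp ((a.1 : ℂ) * Complex.I) * a.2.1.1, a.2.1.2.1, a.2.1.2.2),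
      mul_ne_zero (Complex.exp_ne_zero _) a.2.2.1, a.2.2.2⟩, ?_⟩ (fun z => ?_) (fun z => ?_) 3
    (fun θ z => ?_)
  · simp
  · refine Continuous.subtype_mk ?_ _
    exact (hθ.mul (continuous_fst.comp hz)).prodMk
      ((continuous_fst.comp (continuous_snd.comp hz)).prodMk
        (continuous_snd.comp (continuous_snd.comp hz)))
  · refine Subtype.ext ?_
    show (Complex.exp (((0 : ℝ) : ℂ) * Complex.I) * z.1.1, z.1.2.1, z.1.2.2) = z.1
    simp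
  · refine Subtype.ext ?_
    show (Complex.exp (((2 * Real.pi : ℝ) : ℂ) * Complex.I) * z.1.1, z.1.2.1, z.1.2.2) = z.1
    have h1 : Complex.exp (((2 * Real.pi : ℝ) : ℂ) * Complex.I) = 1 := by
      push_cast
      exact Complex.exp_two_pi_mul_I
    rw [h1, one_mul]
  · show (Complex.exp ((θ : ℂ) * Complex.I) * z.1.1) ^ 3 *
      ((z.1.2.2 ^ 2 - z.1.2.1 ^ 2) ^ 2 * z.1.2.2 ^ 2) =
      Complex.exp (((3 : ℕ) : ℂ) * θ * Complex.I) *
        (z.1.1 ^ 3 * ((z.1.2.2 ^ 2 - z.1.2.1 ^ 2) ^ 2 * z.1.2.2 ^ 2))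
    have h1 : Complex.exp (((3 : ℕ) : ℂ) * θ * Complex.I) =
        Complex.exp ((θ : ℂ) * Complex.I) ^ 3 := by
      rw [← Complex.exp_nat_mul, mul_assoc]
    rw [h1]
    ring

private def hm2_iter {X : Type} [TopologicalSpace X] (T : C(X, X)) : ℕ → C(X, X)
  | 0 => ContinuousMap.id X
  | n + 1 => T.comp (hm2_iter T n)

private lemma hm2_iter_Hmap {X : Type} [TopologicalSpace X] (T : C(X, X)) (n k : ℕ) (a : Hl k X) :
    (Hmap k T)^[n] a = Hmap k (hm2_iter T n) a := by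
  induction n with
  | zero => exact (Hmap_id k a).symm
  | succ n ih =>
    rw [Function.iterate_succ_apply', ih]
    exact (Hmap_comp k T (hm2_iter T n) a).symm

private lemma hm2_iter_T2 (D : Set (ℂ × ℂ)) (n : ℕ) (p : DCov (uFun D)) :
    (hm2_iter (T2 D) n p).1.1.1.1 = p.1.1.1.1 ∧
    (hm2_iter (T2 D) n p).1.1.1.2 = p.1.1.1.2 + n * (2 * Real.pi * Complex.I) ∧
    (hm2_iter (T2 D) n p).1.2 = p.1.2 := by
  induction n with
  | zero => exact ⟨rfl, by simp [hm2_iter], rfl⟩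
  | succ n ih =>
    obtain ⟨h1, h2, h3⟩ := ih
    refine ⟨h1, ?_, h3⟩
    show (hm2_iter (T2 D) n p).1.1.1.2 + 2 * Real.pi * Complex.I = _
    rw [h2]
    push_cast
    ring

/-- the rotation by `θ` -/
private noncomputable def hm2_rot (D : Set (ℂ × ℂ)) (θ : ℝ) (p : DCov (uFun D)) : DCov (uFun D) :=
  ⟨(⟨(⟨(Complex.exp ((θ : ℂ) * Complex.I) ^ 2 * p.1.1.1.1.1.1,
      Complex.exp ((θ : ℂ) * Complex.I) * p.1.1.1.1.1.2.1, p.1.1.1.1.1.2.2.1,
      p.1.1.1.1.1.2.2.2), by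
      refine ⟨?_, p.1.1.1.1.2.2.1, p.1.1.1.1.2.2.2⟩
      show Complex.exp ((θ : ℂ) * Complex.I) ^ 2 * p.1.1.1.1.1.1 -
        (Complex.exp ((θ : ℂ) * Complex.I) * p.1.1.1.1.1.2.1) ^ 2 ≠ 0
      rw [mul_pow, ← mul_sub]
      exact mul_ne_zero (pow_ne_zero 2 (Complex.exp_ne_zero _)) p.1.1.1.1.2.1⟩,
    p.1.1.1.2 + 6 * ((θ : ℂ) * Complex.I)), by
    have h1 : (p.1.1.1.1.1.1 - p.1.1.1.1.1.2.1 ^ 2) ^ 2 *
      (p.1.1.1.1.1.2.2.1 - p.1.1.1.1.1.2.2.2 ^ 2) ^ 2 *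
        (p.1.1.1.1.1.1 * p.1.1.1.1.1.2.2.1) = Complex.exp p.1.1.1.2 := p.1.1.2
    show (Complex.exp ((θ : ℂ) * Complex.I) ^ 2 * p.1.1.1.1.1.1 -
        (Complex.exp ((θ : ℂ) * Complex.I) * p.1.1.1.1.1.2.1) ^ 2) ^ 2 *
      (p.1.1.1.1.1.2.2.1 - p.1.1.1.1.1.2.2.2 ^ 2) ^ 2 *
        (Complex.exp ((θ : ℂ) * Complex.I) ^ 2 * p.1.1.1.1.1.1 * p.1.1.1.1.1.2.2.1) =
        Complex.exp (p.1.1.1.2 + 6 * ((θ : ℂ) * Complex.I))
    have h2 : Complex.exp (6 * ((θ : ℂ) * Complex.I)) =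
        Complex.exp ((θ : ℂ) * Complex.I) ^ 6 := by
      rw [← Complex.exp_nat_mul]
      push_cast
      rfl
    rw [Complex.exp_add, h2, ← h1]
    ring⟩, p.1.2), p.2⟩

private lemma hm2_rot_cont (D : Set (ℂ × ℂ)) :
    Continuous fun a : unitInterval × DCov (uFun D) => hm2_rot D (2 * Real.pi * a.1) a.2 := by
  have h0 : Continuous fun a : unitInterval × DCov (uFun D) => a.2.1 :=
    continuous_subtype_val.comp continuous_snd
  have h1 : Continuous fun a : unitInterval × DCov (uFun D) => a.2.1.1.1 :=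
    continuous_subtype_val.comp (continuous_fst.comp h0)
  have h2 : Continuous fun a : unitInterval × DCov (uFun D) => a.2.1.1.1.1.1 :=
    continuous_subtype_val.comp (continuous_fst.comp h1)
  have hx : Continuous fun a : unitInterval × DCov (uFun D) => a.2.1.1.1.1.1.1 :=
    continuous_fst.comp h2
  have hy : Continuous fun a : unitInterval × DCov (uFun D) => a.2.1.1.1.1.1.2.1 :=
    continuous_fst.comp (continuous_snd.comp h2)
  have huv : Continuous fun a : unitInterval × DCov (uFun D) => a.2.1.1.1.1.1.2.2 :=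
    continuous_snd.comp (continuous_snd.comp h2)
  have ht : Continuous fun a : unitInterval × DCov (uFun D) => a.2.1.1.1.2 :=
    continuous_snd.comp h1
  have hs : Continuous fun a : unitInterval × DCov (uFun D) => a.2.1.2 := continuous_snd.comp h0
  have hθ : Continuous fun a : unitInterval × DCov (uFun D) =>
      (((2 * Real.pi * (a.1 : ℝ) : ℝ) : ℂ) * Complex.I) :=
    (Complex.continuous_ofReal.comp
      (continuous_const.mul (continuous_subtype_val.comp continuous_fst))).mul continuous_const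
  have he : Continuous fun a : unitInterval × DCov (uFun D) =>
      Complex.exp (((2 * Real.pi * (a.1 : ℝ) : ℝ) : ℂ) * Complex.I) :=
    Complex.continuous_exp.comp hθ
  refine Continuous.subtype_mk ?_ _
  refine Continuous.prodMk (Continuous.subtype_mk ?_ _) hs
  refine Continuous.prodMk (Continuous.subtype_mk ?_ _) (ht.add (continuous_const.mul hθ))
  exact ((he.pow 2).mul hx).prodMk ((he.mul hy).prodMk
    ((continuous_fst.comp huv).prodMk (continuous_snd.comp huv)))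

theorem T2_powOne (D : Set (ℂ × ℂ)) : PowOne (T2 D) 6 := by
  intro k a
  rw [hm2_iter_Hmap]
  have hH : (ContinuousMap.id (DCov (uFun D))).Homotopic (hm2_iter (T2 D) 6) := by
    refine ⟨⟨⟨fun a => hm2_rot D (2 * Real.pi * a.1) a.2, hm2_rot_cont D⟩, fun p => ?_,
      fun p => ?_⟩⟩
    · show hm2_rot D (2 * Real.pi * ((0 : unitInterval) : ℝ)) p = p
      have h0 : Complex.exp (((2 * Real.pi * ((0 : unitInterval) : ℝ) : ℝ) : ℂ) * Complex.I) =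
          1 := by simp
      refine Subtype.ext (Prod.ext (Subtype.ext (Prod.ext (Subtype.ext ?_) ?_)) rfl)
      · show (Complex.exp (((2 * Real.pi * ((0 : unitInterval) : ℝ) : ℝ) : ℂ) * Complex.I) ^ 2 *
          p.1.1.1.1.1.1, Complex.exp (((2 * Real.pi * ((0 : unitInterval) : ℝ) : ℝ) : ℂ) *
          Complex.I) * p.1.1.1.1.1.2.1, p.1.1.1.1.1.2.2.1, p.1.1.1.1.1.2.2.2) = p.1.1.1.1.1
        rw [h0, one_pow, one_mul, one_mul]
      · show p.1.1.1.2 + 6 * (((2 * Real.pi * ((0 : unitInterval) : ℝ) : ℝ) : ℂ) * Complex.I) =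
          p.1.1.1.2
        simp
    · show hm2_rot D (2 * Real.pi * ((1 : unitInterval) : ℝ)) p = hm2_iter (T2 D) 6 p
      obtain ⟨e1, e2, e3⟩ := hm2_iter_T2 D 6 p
      have h0 : Complex.exp (((2 * Real.pi * ((1 : unitInterval) : ℝ) : ℝ) : ℂ) * Complex.I) =
          1 := by
        rw [Set.Icc.coe_one, mul_one]
        push_cast
        exact Complex.exp_two_pi_mul_I
      refine Subtype.ext (Prod.ext (Subtype.ext (Prod.ext ?_ ?_)) e3.symm)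
      · rw [e1]
        refine Subtype.ext ?_
        show (Complex.exp (((2 * Real.pi * ((1 : unitInterval) : ℝ) : ℝ) : ℂ) * Complex.I) ^ 2 *
          p.1.1.1.1.1.1, Complex.exp (((2 * Real.pi * ((1 : unitInterval) : ℝ) : ℝ) : ℂ) *
          Complex.I) * p.1.1.1.1.1.2.1, p.1.1.1.1.1.2.2.1, p.1.1.1.1.1.2.2.2) = p.1.1.1.1.1
        rw [h0, one_pow, one_mul, one_mul]
      · rw [e2]
        show p.1.1.1.2 + 6 * (((2 * Real.pi * ((1 : unitInterval) : ℝ) : ℝ) : ℂ) * Complex.I) = _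
        rw [Set.Icc.coe_one, mul_one]
        push_cast
        ring
  rw [← Hmap_homotopic k hH, Hmap_id]

end Pool.Agent.HZ
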