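import Pool.Agent.Lib.MP_3c7f5c_ag.Mon.Alg
import Pool.Agent.Lib.MP_3c7f5c_ag.Mon.Conj
import Pool.Agent.Lib.MP_3c7f5c_ag.Mon.TS3
import Pool.Agent.Lib.MP_3c7f5c_ag.Mon.Expand
import Pool.Agent.Lib.MP_3c7f5c_ag.Mon.Homeo1
import Pool.Agent.Lib.MP_3c7f5c_ag.Mon.Homeo2
import Pool.Agent.Lib.MP_3c7f5c_ag.Hom.Basic
import Pool.Agent.Lib.MP_3c7f5c_ag.Hom.Transfer

/-!
# No eigenvalue of order six on the tube of `f0`
-/

set_option autoImplicit false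

open Set

namespace Pool.Agent.HZ

theorem F1_noEig (D : Set (ℂ × ℂ)) {mu : ℂ} (h3 : mu ^ 3 = 1) (h1 : mu ≠ 1) :
    NoEig (Cov.deck (F1 D)) mu := by
  have h2 : mu ^ 2 ≠ 1 := by
    intro h
    apply h1
    have h4 : mu ^ 3 = mu ^ 2 * mu := by ring
    rw [h3, h, one_mul] at h4
    exact h4.symm
  have hm : (-mu) ^ 3 ≠ 1 := by
    have h4 : (-mu) ^ 3 = -(mu ^ 3) := by ring
    rw [h4, h3]
    norm_num
  have hs : NoEig (Susp.T (F2 D)) mu :=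
    susp_noEig (F2 D) mu h2 ((F2_powOne D).noEig hm)
  obtain ⟨e, he⟩ := homeo2 D
  have ht : NoEig (T2 D) mu := NoEig.of_homeo e he hs
  have h6 : mu ^ 6 = 1 := by
    have h4 : mu ^ 6 = (mu ^ 3) ^ 2 := by ring
    rw [h4, h3, one_pow]
  exact NoEig.of_surj (DCov.proj (uFun D)) (fun _ => rfl)
    (fun k => dcov_surjective (uFun D) (uFun_ne_zero D) k) (by norm_num) (T2_powOne D) h6 ht

theorem tube_kill (r : ℝ) (hr : 0 < r) (D : Set (ℂ × ℂ)) : Kill (deck f0 (Vr r D)) := by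
  refine Kill.of_noEig (tube_powOne6 r D) fun lam hl => ?_
  obtain ⟨h2, h3, h1, -⟩ := lam_facts hl
  obtain ⟨e, he⟩ := homeo1 D
  have hV : NoEig (deck f0 (Vinf D)) lam :=
    NoEig.of_homeo e he (susp_noEig (F1 D) lam h2 (F1_noEig D h3 h1))
  refine NoEig.transport (tubeIncl f0 (Vr_subset_Vinf r D)) ?_ (fun k => ?_) hV
  · have h5 : (tubeIncl f0 (Vr_subset_Vinf r D)).comp (deck f0 (Vr r D)) =
        (deck f0 (Vinf D)).comp (tubeIncl f0 (Vr_subset_Vinf r D)) := rfl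
    rw [h5]
  · obtain ⟨e', he'⟩ := tube_expand r hr D
    rw [← he']
    exact (Hequiv k e').injective

end Pool.Agent.HZ
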