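import Pool.Agent.Lib.MP_3c7f5c_ag.Mon.Conj
import Pool.Agent.Lib.MP_3c7f5c_ag.Mon.NoEigF

/-!
# HZ-LSZ: the local statement at the points of `Z1` and `Z2`
-/

open Set

namespace Pool.Agent.HZ

private lemma lsz_open (r : ℝ) {D : Set (ℂ × ℂ)} (hD : IsOpen D) : IsOpen (Vr r D) := by
  have h0 : IsOpen {z : Fin 5 → ℂ | ‖z 0‖ < r ^ 2} :=
    isOpen_lt (continuous_apply 0).norm continuous_const
  have h1 : IsOpen {z : Fin 5 → ℂ | ‖z 1‖ < r} :=
    isOpen_lt (continuous_apply 1).norm continuous_const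
  have h2 : IsOpen {z : Fin 5 → ℂ | ‖z 2‖ < r} :=
    isOpen_lt (continuous_apply 2).norm continuous_const
  have h3 : IsOpen {z : Fin 5 → ℂ | (z 3, z 4) ∈ D} :=
    hD.preimage ((continuous_apply 3).prodMk (continuous_apply 4))
  exact h0.inter (h1.inter (h2.inter h3))

theorem LS_Z1 (x : Fin 5 → ℂ) (h0 : x 0 = 0) (h1 : x 1 = 0) (h2 : x 2 = 0) : LS f0 x := by
  intro U hU hx
  obtain ⟨ε, hε, hball⟩ := Metric.isOpen_iff.1 hU x hx
  have hr : 0 < min 1 ε := lt_min one_pos hε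
  have hr1 : min 1 ε ≤ 1 := min_le_left _ _
  have hrε : min 1 ε ≤ ε := min_le_right _ _
  have hr2 : (min 1 ε) ^ 2 ≤ min 1 ε := by nlinarith
  refine ⟨Vr (min 1 ε) (Metric.ball (x 3, x 4) (min 1 ε)), lsz_open _ Metric.isOpen_ball, ?_, ?_,
    tube_kill _ hr _⟩
  · refine ⟨?_, ?_, ?_, Metric.mem_ball_self hr⟩
    · rw [h0, norm_zero]; positivity
    · rw [h1, norm_zero]; exact hr
    · rw [h2, norm_zero]; exact hr
  · intro z hz
    obtain ⟨a0, a1, a2, a3⟩ := hz
    rw [Metric.mem_ball, Prod.dist_eq, max_lt_iff] at a3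
    apply hball
    rw [Metric.mem_ball, dist_pi_lt_iff hε]
    intro i
    fin_cases i
    · show dist (z 0) (x 0) < ε
      rw [h0, dist_zero_right]; linarith
    · show dist (z 1) (x 1) < ε
      rw [h1, dist_zero_right]; linarith
    · show dist (z 2) (x 2) < ε
      rw [h2, dist_zero_right]; linarith
    · show dist (z 3) (x 3) < ε
      exact lt_of_lt_of_le a3.1 hrε
    · show dist (z 4) (x 4) < ε
      exact lt_of_lt_of_le a3.2 hrε

/-- the permutation of the coordinates -/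
private def lszP : Fin 5 → Fin 5 := ![3, 4, 2, 0, 1]

private lemma lszP_inv (i : Fin 5) : lszP (lszP i) = i := by
  fin_cases i <;> rfl

private def lszS (z : Fin 5 → ℂ) : Fin 5 → ℂ := fun i => z (lszP i)

private lemma lszS_inv (z : Fin 5 → ℂ) : lszS (lszS z) = z := by
  funext i
  show z (lszP (lszP i)) = z i
  rw [lszP_inv]

private lemma lszS_cont : Continuous lszS :=
  continuous_pi fun i => continuous_apply (lszP i)

private lemma lszS_eval (z : Fin 5 → ℂ) :
    MvPolynomial.eval (lszS z) f0 = MvPolynomial.eval z f0 := by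
  have e0 : lszS z 0 = z 3 := rfl
  have e1 : lszS z 1 = z 4 := rfl
  have e2 : lszS z 2 = z 2 := rfl
  have e3 : lszS z 3 = z 0 := rfl
  have e4 : lszS z 4 = z 1 := rfl
  simp only [f0, map_mul, map_pow, map_sub, map_add, MvPolynomial.eval_X, e0, e1, e2, e3, e4]
  ring

private lemma lsz_tube_eq (V' : Set (Fin 5 → ℂ)) (p : (Fin 5 → ℂ) × ℂ)
    (h : p.1 ∈ lszS ⁻¹' V' ∧ MvPolynomial.eval p.1 f0 = Complex.exp p.2) :
    lszS p.1 ∈ V' ∧ MvPolynomial.eval (lszS p.1) f0 = Complex.exp p.2 :=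
  ⟨h.1, by rw [lszS_eval]; exact h.2⟩

private def lszHomeo (V' : Set (Fin 5 → ℂ)) : Tube f0 (lszS ⁻¹' V') ≃ₜ Tube f0 V' where
  toFun p := ⟨(lszS p.1.1, p.1.2), lsz_tube_eq V' p.1 p.2⟩
  invFun p := ⟨(lszS p.1.1, p.1.2), by
    refine ⟨?_, ?_⟩
    · show lszS (lszS p.1.1) ∈ V'
      rw [lszS_inv]; exact p.2.1
    · show MvPolynomial.eval (lszS p.1.1) f0 = Complex.exp p.1.2
      rw [lszS_eval]; exact p.2.2⟩
  left_inv p := by
    apply Subtype.ext
    exact Prod.ext (lszS_inv _) rfl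
  right_inv p := by
    apply Subtype.ext
    exact Prod.ext (lszS_inv _) rfl
  continuous_toFun := by
    refine Continuous.subtype_mk ?_ _
    exact (lszS_cont.comp (continuous_fst.comp continuous_subtype_val)).prodMk
      (continuous_snd.comp continuous_subtype_val)
  continuous_invFun := by
    refine Continuous.subtype_mk ?_ _
    exact (lszS_cont.comp (continuous_fst.comp continuous_subtype_val)).prodMk
      (continuous_snd.comp continuous_subtype_val)

theorem LS_Z2 (x : Fin 5 → ℂ) (h3 : x 3 = 0) (h4 : x 4 = 0) (h2 : x 2 = 0) : LS f0 x := by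
  intro U hU hx
  obtain ⟨V', hV', hy, hVU, hK⟩ := LS_Z1 (lszS x) h3 h4 h2 (lszS ⁻¹' U) (hU.preimage lszS_cont)
    (by show lszS (lszS x) ∈ U
        rw [lszS_inv]; exact hx)
  refine ⟨lszS ⁻¹' V', hV'.preimage lszS_cont, hy, ?_, ?_⟩
  · intro z hz
    have : lszS (lszS z) ∈ U := hVU hz
    rw [lszS_inv] at this
    exact this
  · exact Kill.of_homeo (lszHomeo V') (fun p => rfl) hK

end Pool.Agent.HZ
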