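import Pool.Agent.Lib.MP_3c7f5c_ag.MonDefs
import Pool.Agent.Lib.MP_3c7f5c_ag.Hom.Basic
import Pool.Agent.Lib.MP_3c7f5c_ag.Mon.Alg
import Pool.Agent.Lib.MP_3c7f5c_ag.Mon.LSZ
import Pool.Agent.Lib.MP_3c7f5c_ag.Mon.Cases

/-!
# Eigenvalues on the stalks of the nearby cycles
-/

set_option autoImplicit false

open Set

namespace Pool.Agent.HZ

private lemma tubeIncl_deck {n : ℕ} (f : MvPolynomial (Fin n) ℂ) {V U : Set (Fin n → ℂ)}
    (h : V ⊆ U) : (tubeIncl f h).comp (deck f V) = (deck f U).comp (tubeIncl f h) := rfl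

private lemma tubeIncl_trans {n : ℕ} (f : MvPolynomial (Fin n) ℂ) {W V U : Set (Fin n → ℂ)}
    (h : W ⊆ V) (h' : V ⊆ U) :
    (tubeIncl f h').comp (tubeIncl f h) = tubeIncl f (h.trans h') := rfl

theorem eig_of_LS {n : ℕ} {f : MvPolynomial (Fin n) ℂ} {x : Fin n → ℂ} (h : LS f x) (k : ℕ)
    (lam : ℂ) (he : IsMonodromyEigenvalueAt f x k lam) : lam ^ 4 + lam ^ 3 - lam - 1 = 0 := by
  obtain ⟨U, hU, hxU, c, ⟨V1, hV1U, hV1, hxV1, hc⟩, hne⟩ := he
  obtain ⟨V, hV, hxV, hVV1, hK⟩ := h V1 hV1 hxV1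
  have hc' := hne V (hVV1.trans hV1U) hV hxV
  have hcc : ∀ a : Hl k (Tube f V), Cmap k (tubeIncl f (hVV1.trans hV1U)) c (Hmap k (deck f V) a) =
      lam * Cmap k (tubeIncl f (hVV1.trans hV1U)) c a := by
    intro a
    have h1 := congrArg (fun g : Coh k (Tube f V1) => g (Hmap k (tubeIncl f hVV1) a)) hc
    have h2 : c (Hmap k (deck f U) (Hmap k (tubeIncl f hV1U) (Hmap k (tubeIncl f hVV1) a))) -
        lam * c (Hmap k (tubeIncl f hV1U) (Hmap k (tubeIncl f hVV1) a)) = 0 := h1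
    have h3 : Hmap k (tubeIncl f hV1U) (Hmap k (tubeIncl f hVV1) a) =
        Hmap k (tubeIncl f (hVV1.trans hV1U)) a := by
      rw [← Hmap_comp, tubeIncl_trans]
    rw [h3] at h2
    have h4 : Hmap k (deck f U) (Hmap k (tubeIncl f (hVV1.trans hV1U)) a) =
        Hmap k (tubeIncl f (hVV1.trans hV1U)) (Hmap k (deck f V) a) := by
      rw [← Hmap_comp, ← Hmap_comp, tubeIncl_deck]
    rw [h4] at h2
    change c (Hmap k (tubeIncl f (hVV1.trans hV1U)) (Hmap k (deck f V) a)) =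
      lam * c (Hmap k (tubeIncl f (hVV1.trans hV1U)) a)
    exact sub_eq_zero.mp h2
  obtain ⟨a, ha⟩ : ∃ a, Cmap k (tubeIncl f (hVV1.trans hV1U)) c a ≠ 0 := by
    by_contra hcon
    push Not at hcon
    exact hc' (LinearMap.ext hcon)
  have hk := congrArg (Cmap k (tubeIncl f (hVV1.trans hV1U)) c) (hK k a)
  rw [map_sub, map_sub, map_add, map_zero] at hk
  simp only [hcc] at hk
  have hfac : (lam ^ 4 + lam ^ 3 - lam - 1) * Cmap k (tubeIncl f (hVV1.trans hV1U)) c a = 0 := by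
    rw [← hk]
    ring
  exact (mul_eq_zero.mp hfac).resolve_right ha

theorem mon_main (x : Fin 5 → ℂ) (hx : MvPolynomial.eval x f0 = 0) (k : ℕ) (lam : ℂ)
    (he : IsMonodromyEigenvalueAt f0 x k lam) : ¬ 6 ∣ orderOf lam := by
  refine order_of_kill (eig_of_LS ?_ k lam he)
  by_cases h1 : x 0 = 0 ∧ x 1 = 0 ∧ x 2 = 0
  · exact LS_Z1 x h1.1 h1.2.1 h1.2.2
  · by_cases h2 : x 3 = 0 ∧ x 4 = 0 ∧ x 2 = 0
    · exact LS_Z2 x h2.1 h2.2.1 h2.2.2
    · exact LS_generic x hx h1 h2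

end Pool.Agent.HZ
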